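import Pool.Agent.Lib.MP_032401_al.Z.LemmaA

/-!
# MP_032401_al: conjugates of an element without fusion
-/

set_option autoImplicit false

namespace Pool.Agent.Lib.MP_032401_al.Z

open Subgroup
open scoped commutatorElement

variable {G : Type} [Group G]

/-- **Lemma A**, involutions -/
theorem ZCls.lemmaA_two (hG : ZCls G) {t : G} (ht : t ^ 2 = 1) {N N' : Subgroup G}
    (hN : Fpf t N) (hN' : Fpf t N') : Comm2 N N' := by
  have key : ∀ n : ℕ, ∀ a ∈ N, orderOf a ≤ n → ∀ b ∈ N', a * b = b * a := by
    intro n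
    induction n with
    | zero =>
      intro a _ hn
      have h1 := orderOf_pos_iff.2 (hG.per a)
      omega
    | succ n ih =>
      intro a ha hn b hb
      have hpos := orderOf_pos_iff.2 (hG.per a)
      by_cases ha1 : orderOf a = 1
      · rw [orderOf_eq_one_iff.1 ha1, one_mul, mul_one]
      obtain ⟨q, hq, hqd⟩ := Nat.exists_prime_and_dvd ha1
      have hpow : ∀ d : ℕ, d ∣ orderOf a → d ≠ 1 → ∀ b ∈ N', a ^ d * b = b * a ^ d := by
        intro d hd hd1
        apply ih _ (N.pow_mem ha d)
        have hd0 : d ≠ 0 := by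
          rintro rfl
          have := Nat.eq_zero_of_zero_dvd hd
          omega
        rw [orderOf_pow_of_dvd hd0 hd]
        have h1 : orderOf a / d < orderOf a := Nat.div_lt_self hpos (by omega)
        omega
      obtain ⟨i, m, hm, him⟩ := Nat.exists_eq_pow_mul_and_not_dvd
        (n := orderOf a) hpos.ne' q hq.one_lt.ne'
      have hi0 : i ≠ 0 := by
        rintro rfl
        rw [pow_zero, one_mul] at him
        exact hm (by rw [← him]; exact hqd)
      by_cases hm1 : m = 1
      swap
      · have h1 := hpow m ⟨q ^ i, by rw [him, mul_comm]⟩ hm1 b hb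
        have h2 := hpow (q ^ i) ⟨m, him⟩ (by
          have h3 := Nat.one_lt_pow hi0 hq.one_lt
          omega) b hb
        have h3 : a ∈ Subgroup.centralizer {b} := by
          refine mem_of_pow_mem (Subgroup.mem_centralizer_singleton_iff.2 h2)
            (Subgroup.mem_centralizer_singleton_iff.2 h1)
            (Nat.Coprime.pow_left i ((hq.coprime_iff_not_dvd).2 hm))
        exact Subgroup.mem_centralizer_singleton_iff.1 h3
      -- elements of prime power order
      obtain ⟨k, hk⟩ := hG.odd_order hN ha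
      obtain ⟨l, hl⟩ := hG.odd_order hN' hb
      have hq2 : q ≠ 2 := by
        rintro rfl
        have h1 := hqd.trans (orderOf_dvd_of_pow_eq_one hk)
        omega
      have hcb := hpow q hqd hq.one_lt.ne'
      have hta := hN.inv_of_sq ht a ha
      have htb := hN'.inv_of_sq ht b hb
      have hHf : ((zpowers (a ^ q) : Subgroup G) : Set G).Finite := (hG.per _).finite_zpowers
      have hcent : ∀ c : G, c * a ^ q = a ^ q * c →
          c ∈ normalizer ((zpowers (a ^ q) : Subgroup G) : Set G) := by
        intro c hc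
        refine zpowers_le_normalizer hHf ?_ (Subgroup.mem_zpowers c)
        rintro _ ⟨j, rfl⟩
        have h1 : c * (a ^ q) ^ j = (a ^ q) ^ j * c :=
          ((show Commute c (a ^ q) from hc).zpow_right j).eq
        show c * (a ^ q) ^ j * c⁻¹ ∈ zpowers (a ^ q)
        rw [h1, mul_inv_cancel_right]
        exact zpow_mem (Subgroup.mem_zpowers _) j
      have haH := hcent a ((Commute.refl a).pow_right q).eq
      have hbH := hcent b (hcb b hb).symm
      have htH : t ∈ normalizer ((zpowers (a ^ q) : Subgroup G) : Set G) := by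
        refine zpowers_le_normalizer hHf ?_ (Subgroup.mem_zpowers t)
        rintro _ ⟨j, rfl⟩
        show t * (a ^ q) ^ j * t⁻¹ ∈ zpowers (a ^ q)
        rw [← conj_zpow, ← conj_pow, hta, inv_pow, inv_zpow]
        exact inv_mem (zpow_mem (Subgroup.mem_zpowers _) j)
      have hQ := hG.section _ hHf
      set H := zpowers (a ^ q) with hH
      let π := QuotientGroup.mk' (H.subgroupOf (normalizer (H : Set G)))
      have hker : ∀ z : normalizer (H : Set G), π z = 1 ↔ (z : G) ∈ H := by
        intro z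
        rw [← MonoidHom.mem_ker, QuotientGroup.ker_mk']
        exact Iff.rfl
      let T : normalizer (H : Set G) := ⟨t, htH⟩
      let A : normalizer (H : Set G) := ⟨a, haH⟩
      let B : normalizer (H : Set G) := ⟨b, hbH⟩
      have e1 : (π T) ^ 2 = 1 := by
        rw [← map_pow, hker]
        show t ^ 2 ∈ H
        rw [ht]; exact one_mem _
      have e2 : (π A) ^ q = 1 := by
        rw [← map_pow, hker]
        exact Subgroup.mem_zpowers _
      have e3 : π T * π A * (π T)⁻¹ = (π A)⁻¹ := by
        rw [← map_mul, ← map_inv, ← map_mul, ← map_inv]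
        congr 1
        exact Subtype.ext hta
      have e4 : π T * π B * (π T)⁻¹ = (π B)⁻¹ := by
        rw [← map_mul, ← map_inv, ← map_mul, ← map_inv]
        congr 1
        exact Subtype.ext htb
      have e5 : (π B) ^ (2 * l + 1) = 1 := by
        rw [← map_pow, hker]
        show b ^ (2 * l + 1) ∈ H
        rw [hl]; exact one_mem _
      have e6 := hQ.two_prime hq hq2 e1 e2 e3 e4 e5
      have e7 : ⁅b, a⁆ ∈ H := by
        have h1 : π ⁅B, A⁆ = 1 := by
          rw [map_commutatorElement, commutatorElement_def, e6, mul_inv_cancel]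
        exact (hker _).1 h1
      have e8 : ⁅a, b⁆ ∈ H := by
        rw [← commutatorElement_inv]
        exact inv_mem e7
      obtain ⟨j, hj⟩ := e8
      have hj' : (a ^ q) ^ j = ⁅a, b⁆ := hj
      have h3 : ⁅a, b⁆ * a = a * ⁅a, b⁆ := by
        rw [← hj']
        exact (((Commute.refl a).pow_left q).zpow_left j).eq
      have h4 : ⁅a, b⁆ * b = b * ⁅a, b⁆ := by
        rw [← hj']
        exact ((show Commute (a ^ q) b from hcb b hb).zpow_left j).eq
      exact hG.pre.comm_of_central h3 h4 (finite_of_central hG.per h3 h4)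
  intro a ha b hb
  exact key _ a ha (le_refl _) b hb

/-- **Lemma A** -/
theorem ZCls.lemmaA (hG : ZCls G) {p : ℕ} (hp : p.Prime) {t : G} (ht : t ^ p = 1) (hNF : NF t)
    {N N' : Subgroup G} (hN : Fpf t N) (hN' : Fpf t N') : Comm2 N N' := by
  rcases hp.eq_two_or_odd' with h | h
  · subst h
    exact hG.lemmaA_two ht hN hN'
  · exact hG.lemmaA_odd hp h ht hNF hN hN'

/-- finitely many conjugates of an element without fusion generate a finite subgroup -/
theorem ZCls.conj_finite (hG : ZCls G) {p : ℕ} (hp : p.Prime) {t : G} (ht : t ^ p = 1)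
    (hNF : NF t) {S : Set G} (hS : S.Finite) (hSc : ∀ y ∈ S, ∃ g : G, g * t * g⁻¹ = y) :
    ((closure S : Subgroup G) : Set G).Finite := by
  have hfpf : ∀ y ∈ S, Fpf t ⁅closure {t, y}, closure {t, y}⁆ := by
    intro y hy
    obtain ⟨g, rfl⟩ := hSc y hy
    have hv : (g * t * g⁻¹) ^ p = 1 := by rw [conj_pow, ht]; group
    exact (hG.pre.step1 hp ht hv (hG.pair hp ht g)).2.1
  let E : Set G := {d | ∃ y ∈ S, d ∈ ⁅closure {t, y}, closure {t, y}⁆}
  have hEf : E.Finite := by
    have h1 : (⋃ y ∈ S, ((⁅closure {t, y}, closure {t, y}⁆ : Subgroup G) :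
        Set G)).Finite := hS.biUnion fun y hy => (hfpf y hy).fin
    refine h1.subset ?_
    rintro d ⟨y, hy, hd⟩
    simp only [Set.mem_iUnion]
    exact ⟨y, hy, hd⟩
  have hEc : ∀ x ∈ E, ∀ y ∈ E, x * y = y * x := by
    rintro x ⟨y, hy, hx⟩ x' ⟨y', hy', hx'⟩
    exact hG.lemmaA hp ht hNF (hfpf y hy) (hfpf y' hy') x hx x' hx'
  have hDf := finite_of_comm hG.per hEf hEc
  have htD : ∀ a ∈ closure E, t * a * t⁻¹ ∈ closure E := by
    intro a ha
    induction ha using closure_induction with
    | mem z hz =>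
      obtain ⟨y, hy, hd⟩ := hz
      exact subset_closure ⟨y, hy, (hfpf y hy).inv z hd⟩
    | one => rw [mul_one, mul_inv_cancel]; exact one_mem _
    | mul x y _ _ hx hy =>
      have h1 : t * (x * y) * t⁻¹ = (t * x * t⁻¹) * (t * y * t⁻¹) := by group
      rw [h1]; exact mul_mem hx hy
    | inv x _ hx =>
      have h1 : t * x⁻¹ * t⁻¹ = (t * x * t⁻¹)⁻¹ := by group
      rw [h1]; exact inv_mem hx
  have hL := sup_finite hDf (hG.per t).finite_zpowers (zpowers_le_normalizer hDf htD)
  refine hL.subset ?_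
  have h1 : closure S ≤ closure E ⊔ zpowers t := by
    rw [closure_le]
    intro y hy
    obtain ⟨g, hg⟩ := hSc y hy
    have h2 := hG.coset hp ht hNF g
    rw [hg] at h2
    have h3 : y * t⁻¹ ∈ closure E ⊔ zpowers t :=
      (le_sup_left : _ ≤ closure E ⊔ zpowers t) (subset_closure ⟨y, hy, h2⟩)
    have h4 : t ∈ closure E ⊔ zpowers t :=
      (le_sup_right : _ ≤ closure E ⊔ zpowers t) (Subgroup.mem_zpowers t)
    have h5 := mul_mem h3 h4
    rw [inv_mul_cancel_right] at h5
    exact h5
  exact h1

/-- the version in a section -/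
theorem ZCls.conj_finite_section (hG : ZCls G) {q : ℕ} (hq : q.Prime) {H : Subgroup G}
    (hH : (H : Set G).Finite) {g : G} (hgN : g ∈ normalizer (H : Set G)) (hgq : g ^ q ∈ H)
    (hNF : ∀ c ∈ normalizer (H : Set G), ∀ i : ℤ, c * g * c⁻¹ * (g ^ i)⁻¹ ∈ H →
      c * g * c⁻¹ * g⁻¹ ∈ H) {T : Set G} (hT : T.Finite)
    (hTc : ∀ x ∈ T, ∃ c ∈ normalizer (H : Set G), c * g * c⁻¹ = x) :
    ((closure T : Subgroup G) : Set G).Finite := by
  have hQ := hG.section H hH
  let π := QuotientGroup.mk' (H.subgroupOf (normalizer (H : Set G)))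
  have hkm : ∀ z : normalizer (H : Set G), π z = 1 ↔ (z : G) ∈ H := by
    intro z
    rw [← MonoidHom.mem_ker, QuotientGroup.ker_mk']
    exact Iff.rfl
  let ι : normalizer (H : Set G) → G := Subtype.val
  let T' : Set (normalizer (H : Set G)) := ι ⁻¹' T
  have hT' : T'.Finite := hT.preimage Subtype.val_injective.injOn
  have hTN : ∀ x ∈ T, x ∈ normalizer (H : Set G) := by
    intro x hx
    obtain ⟨c, hc, rfl⟩ := hTc x hx
    exact mul_mem (mul_mem hc hgN) (inv_mem hc)
  have hTT' : ι '' T' = T := by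
    ext x
    constructor
    · rintro ⟨y, hy, rfl⟩
      exact hy
    · intro hx
      exact ⟨⟨x, hTN x hx⟩, hx, rfl⟩
  let γ : normalizer (H : Set G) := ⟨g, hgN⟩
  have hγ : (π γ) ^ q = 1 := by
    rw [← map_pow, hkm]
    exact hgq
  have hγNF : NF (π γ) := by
    intro c i hc
    obtain ⟨c, rfl⟩ := QuotientGroup.mk'_surjective _ c
    have h1 : π (c * γ * c⁻¹ * (γ ^ i)⁻¹) = 1 := by
      rw [map_mul, map_inv, map_zpow, map_mul, map_mul, map_inv]
      exact mul_inv_eq_one.2 hc
    have h2 := hNF c.1 c.2 i ((hkm _).1 h1)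
    have h3 : π (c * γ * c⁻¹ * γ⁻¹) = 1 := (hkm _).2 h2
    rw [map_mul, map_inv, map_mul, map_mul, map_inv] at h3
    exact mul_inv_eq_one.1 h3
  have h1 := hQ.conj_finite hq hγ hγNF (S := π '' T') (hT'.image π) (by
    rintro _ ⟨y, hy, rfl⟩
    obtain ⟨c, hc, hcy⟩ := hTc y.1 hy
    refine ⟨π ⟨c, hc⟩, ?_⟩
    rw [← map_inv, ← map_mul, ← map_mul]
    congr 1
    exact Subtype.ext hcy)
  rw [← MonoidHom.map_closure, Subgroup.coe_map] at h1
  have hker : (π.ker : Set (normalizer (H : Set G))).Finite := by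
    rw [QuotientGroup.ker_mk']
    exact hH.preimage (f := (Subtype.val : normalizer (H : Set G) → G))
      (Subtype.val_injective.injOn)
  have h2 : ((closure T' : Subgroup (normalizer (H : Set G))) :
      Set (normalizer (H : Set G))).Finite := by
    refine (h1.preimage' (f := π) fun b hb => ?_).subset (Set.subset_preimage_image π _)
    obtain ⟨g, _, rfl⟩ := hb
    refine (hker.image (fun z => g * z)).subset ?_
    intro z hz
    refine ⟨g⁻¹ * z, ?_, by simp⟩
    have hz' : π z = π g := hz
    show g⁻¹ * z ∈ π.ker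
    rw [MonoidHom.mem_ker, map_mul, map_inv, hz', inv_mul_cancel]
  have h3 : closure T = (closure T').map (normalizer (H : Set G)).subtype := by
    rw [MonoidHom.map_closure]
    congr 1
    exact hTT'.symm
  rw [h3, Subgroup.coe_map]
  exact h2.image _

end Pool.Agent.Lib.MP_032401_al.Z
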