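import Pool.Agent.Lib.MP_032401_al.Z.Pre

/-!
# MP_032401_al: conjugacy biprimitively finite groups with cyclic finite `p`-subgroups
-/

set_option autoImplicit false

namespace Pool.Agent.Lib.MP_032401_al.Z

open Subgroup
open scoped commutatorElement

/-- conjugacy biprimitively finite groups -/
def CBF (G : Type) [Group G] : Prop :=
  ∀ H : Subgroup G, (H : Set G).Finite →
    ∀ x g : G, x ∈ Subgroup.normalizer (H : Set G) → g ∈ Subgroup.normalizer (H : Set G) →
      (∃ p : ℕ, p.Prime ∧ x ∉ H ∧ x ^ p ∈ H) →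
      ((Subgroup.closure ((H : Set G) ∪ {x, g * x * g⁻¹}) : Subgroup G) : Set G).Finite

/-- the class of groups considered here -/
structure ZCls (G : Type) [Group G] : Prop where
  per : ∀ g : G, IsOfFinOrder g
  cbf : CBF G
  cyc : ∀ p : ℕ, p.Prime → ∀ P : Subgroup G, (P : Set G).Finite →
    (∀ x ∈ P, ∃ k : ℕ, x ^ p ^ k = 1) → IsCyclic P

variable {G : Type} [Group G]

theorem ZCls.isZ (hG : ZCls G) (F : Subgroup G) (hF : (F : Set G).Finite) : IsZGroup F := by
  refine ⟨fun p hp P => ?_⟩
  have hfin : (((P : Subgroup F).map F.subtype : Subgroup G) : Set G).Finite :=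
    hF.subset (Subgroup.map_subtype_le _)
  have h := hG.cyc p hp ((P : Subgroup F).map F.subtype) hfin (by
    rintro _ ⟨x, hx, rfl⟩
    obtain ⟨k, hk⟩ := P.2 ⟨x, hx⟩
    refine ⟨k, ?_⟩
    have h5 := congrArg (fun z : P => ((z : F) : G)) hk
    simpa using h5)
  exact isCyclic_of_surjective _
    ((P : Subgroup F).equivMapOfInjective F.subtype F.subtype_injective).symm.surjective

theorem ZCls.pre (hG : ZCls G) : Pre G where
  per := hG.per
  met F hF a ha b hb c hc d hd := by
    have hfin : Finite F := hF.to_subtype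
    have hZ := hG.isZ F hF
    have hcyc : IsCyclic (commutator F) := IsZGroup.isCyclic_commutator F
    have hab : ∀ x y : F, x ∈ commutator F → y ∈ commutator F → x * y = y * x := by
      intro x y hx hy
      have h1 := (IsCyclic.commGroup (α := commutator F)).mul_comm ⟨x, hx⟩ ⟨y, hy⟩
      exact congrArg Subtype.val h1
    have h1 := hab ⁅(⟨a, ha⟩ : F), ⟨b, hb⟩⁆ ⁅(⟨c, hc⟩ : F), ⟨d, hd⟩⁆
      (Subgroup.commutator_mem_commutator (Subgroup.mem_top _) (Subgroup.mem_top _))
      (Subgroup.commutator_mem_commutator (Subgroup.mem_top _) (Subgroup.mem_top _))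
    exact congrArg Subtype.val h1
  abp p hp P hP hk a ha b hb := by
    have hcyc := hG.cyc p hp P hP hk
    have h1 := (IsCyclic.commGroup (α := P)).mul_comm ⟨a, ha⟩ ⟨b, hb⟩
    exact congrArg Subtype.val h1

theorem ZCls.of_injective {K : Type} [Group K] (hG : ZCls G) (f : K →* G)
    (hf : Function.Injective f) : ZCls K where
  per g := by
    obtain ⟨n, hn, h⟩ := isOfFinOrder_iff_pow_eq_one.1 (hG.per (f g))
    refine isOfFinOrder_iff_pow_eq_one.2 ⟨n, hn, hf ?_⟩
    rw [map_pow, h, map_one]
  cbf H hH x g hx hg hxp := by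
    obtain ⟨p, hp, hxH, hxp⟩ := hxp
    have hN : ∀ z, z ∈ Subgroup.normalizer (H : Set K) →
        f z ∈ Subgroup.normalizer ((H.map f : Subgroup G) : Set G) := by
      intro z hz
      exact Subgroup.le_normalizer_map f ⟨z, hz, rfl⟩
    have hfin : ((H.map f : Subgroup G) : Set G).Finite := by
      rw [Subgroup.coe_map]; exact hH.image f
    have hnot : ∀ z, z ∉ H → f z ∉ H.map f := by
      rintro z hz ⟨w, hw, hwz⟩
      exact hz (by rw [← hf hwz]; exact hw)
    have h1 := hG.cbf (H.map f) hfin (f x) (f g) (hN x hx) (hN g hg)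
      ⟨p, hp, hnot x hxH, ⟨x ^ p, hxp, map_pow f x p⟩⟩
    have h2 : ((H.map f : Subgroup G) : Set G) ∪ {f x, f g * f x * (f g)⁻¹} =
        f '' ((H : Set K) ∪ {x, g * x * g⁻¹}) := by
      rw [Set.image_union, Set.image_pair, Subgroup.coe_map, map_mul, map_mul, map_inv]
    rw [h2, ← MonoidHom.map_closure, Subgroup.coe_map] at h1
    exact h1.of_finite_image hf.injOn
  cyc p hp P hP hk := by
    have hfin : ((P.map f : Subgroup G) : Set G).Finite := by
      rw [Subgroup.coe_map]; exact hP.image f
    have h := hG.cyc p hp (P.map f) hfin (by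
      rintro _ ⟨x, hx, rfl⟩
      obtain ⟨k, hk⟩ := hk x hx
      exact ⟨k, by rw [← map_pow, hk, map_one]⟩)
    exact isCyclic_of_surjective _ (P.equivMapOfInjective f hf).symm.surjective

theorem ZCls.subgroup (hG : ZCls G) (K : Subgroup G) : ZCls K :=
  hG.of_injective K.subtype K.subtype_injective

theorem ZCls.of_surjective {Q : Type} [Group Q] (hG : ZCls G) (f : G →* Q)
    (hf : Function.Surjective f) (hk : (f.ker : Set G).Finite) : ZCls Q := by
  have hpre : ∀ A : Subgroup Q, (A : Set Q).Finite → ((A.comap f : Subgroup G) : Set G).Finite := by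
    intro A hA
    rw [Subgroup.coe_comap]
    refine hA.preimage' fun b _ => ?_
    obtain ⟨g, rfl⟩ := hf b
    refine (hk.image (fun z => g * z)).subset ?_
    intro z hz
    refine ⟨g⁻¹ * z, ?_, by simp⟩
    have hz' : f z = f g := hz
    show g⁻¹ * z ∈ f.ker
    rw [MonoidHom.mem_ker, map_mul, map_inv, hz', inv_mul_cancel]
  refine ⟨?_, ?_, ?_⟩
  · intro g
    obtain ⟨g, rfl⟩ := hf g
    exact f.isOfFinOrder (hG.per g)
  · intro H hH x y hx hy hxp
    obtain ⟨p, hp, hxH, hxp⟩ := hxp
    obtain ⟨x, rfl⟩ := hf x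
    obtain ⟨y, rfl⟩ := hf y
    have h1 := hG.cbf (H.comap f) (hpre H hH) x y
      (Subgroup.le_normalizer_comap f hx) (Subgroup.le_normalizer_comap f hy)
      ⟨p, hp, hxH, by rw [Subgroup.mem_comap, map_pow]; exact hxp⟩
    have h2 : f '' (((H.comap f : Subgroup G) : Set G) ∪ {x, y * x * y⁻¹}) =
        (H : Set Q) ∪ {f x, f y * f x * (f y)⁻¹} := by
      rw [Set.image_union, Set.image_pair, Subgroup.coe_comap, Set.image_preimage_eq _ hf,
        map_mul, map_mul, map_inv]
    rw [← h2, ← MonoidHom.map_closure, Subgroup.coe_map]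
    exact h1.image f
  · intro p hp P hP hk'
    have hfact : Fact p.Prime := ⟨hp⟩
    have hFfin : Finite (P.comap f) := (hpre P hP).to_subtype
    have hPfin : Finite P := hP.to_subtype
    have hZ := hG.isZ (P.comap f) (hpre P hP)
    have hZP : IsZGroup P := IsZGroup.of_surjective (f := f.subgroupComap P)
      (f.subgroupComap_surjective_of_surjective P hf)
    have hPp : IsPGroup p P := by
      intro x
      obtain ⟨k, hk⟩ := hk' x.1 x.2
      exact ⟨k, Subtype.ext (by simpa using hk)⟩
    have h3 : IsCyclic (⊤ : Subgroup P) :=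
      (IsPGroup.of_equiv hPp Subgroup.topEquiv.symm).isCyclic_of_isZGroup
    exact isCyclic_of_surjective _ (Subgroup.topEquiv (G := P)).surjective

/-- The section `N_G(H)/H`. -/
theorem ZCls.section (hG : ZCls G) (H : Subgroup G) (hH : (H : Set G).Finite) :
    ZCls ((Subgroup.normalizer (H : Set G)) ⧸
      (H.subgroupOf (Subgroup.normalizer (H : Set G)))) := by
  refine (hG.subgroup (Subgroup.normalizer (H : Set G))).of_surjective
    (QuotientGroup.mk' _) (QuotientGroup.mk'_surjective _) ?_
  rw [QuotientGroup.ker_mk']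
  have h := hH.preimage (f := (Subtype.val : Subgroup.normalizer (H : Set G) → G))
    (Subtype.val_injective.injOn)
  exact h

/-- a conjugate pair of elements of prime order -/
theorem ZCls.pair (hG : ZCls G) {p : ℕ} (hp : p.Prime) {x : G} (hx : x ^ p = 1) (g : G) :
    ((closure {x, g * x * g⁻¹} : Subgroup G) : Set G).Finite := by
  by_cases hx1 : x = 1
  · have h1 : closure {x, g * x * g⁻¹} ≤ ⊥ := by
      rw [closure_le, hx1]
      rintro z (rfl | hz)
      · exact one_mem _
      · rw [Set.mem_singleton_iff] at hz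
        rw [hz]; simp
    exact (by simp : (((⊥ : Subgroup G)) : Set G).Finite).subset h1
  have hN : ∀ z : G, z ∈ normalizer ((⊥ : Subgroup G) : Set G) := by
    intro z
    rw [normalizer_eq_top]
    trivial
  have h := hG.cbf ⊥ (by simp) x g (hN x) (hN g) ⟨p, hp, by simpa using hx1, by simpa using hx⟩
  exact h.subset (closure_mono Set.subset_union_right)

/-- two elements of a finite `p`-subgroup of which both have order `p` are powers of each
other -/
theorem ZCls.mem_zpowers (hG : ZCls G) {p : ℕ} (hp : p.Prime) {t h : G} (ht : t ^ p = 1)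
    (hh : h ^ p = 1) (hc : h * t = t * h) (ht1 : t ≠ 1) : ∃ i : ℤ, t ^ i = h := by
  have hfin : ((closure {t, h} : Subgroup G) : Set G).Finite := by
    apply finite_of_comm hG.per (by simp)
    rintro x (rfl | hx) y (rfl | hy)
    · rfl
    · rw [Set.mem_singleton_iff] at hy
      rw [hy]; exact hc.symm
    · rw [Set.mem_singleton_iff] at hx
      rw [hx]; exact hc
    · rw [Set.mem_singleton_iff] at hx hy
      rw [hx, hy]
  have hcomm := closure_comm (S := {t, h}) (by
    rintro x (rfl | hx) y (rfl | hy)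
    · rfl
    · rw [Set.mem_singleton_iff] at hy
      rw [hy]; exact hc.symm
    · rw [Set.mem_singleton_iff] at hx
      rw [hx]; exact hc
    · rw [Set.mem_singleton_iff] at hx hy
      rw [hx, hy])
  have hexp : ∀ x ∈ closure {t, h}, x ^ p = 1 := by
    intro x hx
    induction hx using closure_induction with
    | mem z hz =>
      rcases hz with rfl | hz
      · exact ht
      · rw [Set.mem_singleton_iff] at hz
        rw [hz]; exact hh
    | one => exact one_pow p
    | mul a b ha hb iha ihb =>
      rw [(show Commute a b from hcomm a ha b hb).mul_pow, iha, ihb, one_mul]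
    | inv a ha iha => rw [inv_pow, iha, inv_one]
  have hcyc := hG.cyc p hp _ hfin (fun x hx => ⟨1, by rw [pow_one]; exact hexp x hx⟩)
  have hF : Finite (closure {t, h}) := hfin.to_subtype
  obtain ⟨c, hcgen⟩ := IsCyclic.exists_generator (α := closure {t, h})
  obtain ⟨i, hi⟩ := hcgen ⟨t, subset_closure (by simp)⟩
  obtain ⟨j, hj⟩ := hcgen ⟨h, subset_closure (by simp)⟩
  have hi' : (c : G) ^ i = t := by
    have := congrArg Subtype.val hi
    simpa using this
  have hj' : (c : G) ^ j = h := by
    have := congrArg Subtype.val hj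
    simpa using this
  have hcp : (c : G) ^ p = 1 := hexp c.1 c.2
  -- p does not divide i
  have hpi : ¬ (p : ℤ) ∣ i := by
    rintro ⟨k, hk⟩
    apply ht1
    rw [← hi', hk, zpow_mul, zpow_natCast, hcp, one_zpow]
  have hcop : IsCoprime i (p : ℤ) :=
    ((Nat.prime_iff_prime_int.1 hp).coprime_iff_not_dvd.2 hpi).symm
  obtain ⟨u, v, huv⟩ := hcop
  refine ⟨u * j, ?_⟩
  have h1 : i * (u * j) = j - (p : ℤ) * (v * j) := by linear_combination j * huv
  calc t ^ (u * j) = ((c : G) ^ i) ^ (u * j) := by rw [hi']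
    _ = (c : G) ^ (j - (p : ℤ) * (v * j)) := by rw [← zpow_mul, h1]
    _ = (c : G) ^ j := by
      rw [zpow_sub, zpow_mul, zpow_natCast, hcp, one_zpow, inv_one, mul_one]
    _ = h := hj'

end Pool.Agent.Lib.MP_032401_al.Z
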