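import Pool.Agent.Lib.MP_032401_al.Z.Defs

/-!
# MP_032401_al: Lemma A for conjugacy biprimitively finite groups with cyclic finite `p`-subgroups
-/

set_option autoImplicit false

namespace Pool.Agent.Lib.MP_032401_al.Z

open Subgroup
open scoped commutatorElement

variable {G : Type} [Group G]

theorem sq_zpow {z : G} (hz : z ^ 2 = 1) (i : ℤ) : z ^ i = 1 ∨ z ^ i = z := by
  rcases Int.even_or_odd i with ⟨k, hk⟩ | ⟨k, hk⟩
  · left
    rw [hk, ← two_mul, zpow_mul]
    have h1 : z ^ (2 : ℤ) = 1 := by exact_mod_cast hz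
    rw [h1, one_zpow]
  · right
    rw [hk, zpow_add, zpow_mul, zpow_one]
    have h1 : z ^ (2 : ℤ) = 1 := by exact_mod_cast hz
    rw [h1, one_zpow, one_mul]

/-- commuting involutions are equal -/
theorem ZCls.invol_eq (hG : ZCls G) {t z : G} (ht : t ^ 2 = 1) (hz : z ^ 2 = 1)
    (hc : z * t = t * z) (ht1 : t ≠ 1) (hz1 : z ≠ 1) : z = t := by
  obtain ⟨i, hi⟩ := hG.mem_zpowers Nat.prime_two ht hz hc ht1
  rcases sq_zpow ht i with h | h
  · exact absurd (by rw [← hi, h]) hz1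
  · rw [← hi, h]

/-- groups on which an element acts without fixed points have odd order -/
theorem ZCls.odd_order (hG : ZCls G) {t : G} {N : Subgroup G} (hN : Fpf t N) {a : G}
    (ha : a ∈ N) : ∃ k : ℕ, a ^ (2 * k + 1) = 1 := by
  have hpos : 0 < orderOf a := orderOf_pos_iff.2 (hG.per a)
  rcases Nat.even_or_odd (orderOf a) with ⟨k, hk⟩ | ⟨k, hk⟩
  · exfalso
    have hz1 : a ^ k ≠ 1 := by
      intro h
      have h1 := Nat.le_of_dvd (by omega) (orderOf_dvd_of_pow_eq_one h)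
      omega
    have hz2 : (a ^ k) ^ 2 = 1 := by
      rw [← pow_mul, mul_two, ← hk, pow_orderOf_eq_one]
    have hzN : a ^ k ∈ N := N.pow_mem ha k
    have hz3 : (t * a ^ k * t⁻¹) ^ 2 = 1 := by rw [conj_pow, hz2]; group
    have hz4 : t * a ^ k * t⁻¹ ≠ 1 := by
      intro h
      apply hz1
      have h2 : a ^ k = t⁻¹ * (t * a ^ k * t⁻¹) * t := by group
      rw [h2, h]
      group
    have h1 := hG.invol_eq hz2 hz3 (hN.comm _ (hN.inv _ hzN) _ hzN) hz1 hz4
    apply hz1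
    apply hN.fix _ hzN
    have h2 : a ^ k * t = t * a ^ k * t⁻¹ * t := by rw [h1]
    rw [h2]
    group
  · exact ⟨k, by rw [← hk, pow_orderOf_eq_one]⟩

theorem finite_of_central (hper : ∀ g : G, IsOfFinOrder g) {a b : G}
    (ha : ⁅a, b⁆ * a = a * ⁅a, b⁆) (hb : ⁅a, b⁆ * b = b * ⁅a, b⁆) :
    ((closure {a, b} : Subgroup G) : Set G).Finite := by
  have hAf : ((closure {⁅a, b⁆, a} : Subgroup G) : Set G).Finite := by
    apply finite_of_comm hper (by simp)
    rintro x (rfl | hx) y (rfl | hy)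
    · rfl
    · rw [Set.mem_singleton_iff] at hy
      rw [hy]; exact ha
    · rw [Set.mem_singleton_iff] at hx
      rw [hx]; exact ha.symm
    · rw [Set.mem_singleton_iff] at hx hy
      rw [hx, hy]
  have hinv : ∀ x ∈ closure {⁅a, b⁆, a}, b * x * b⁻¹ ∈ closure {⁅a, b⁆, a} := by
    intro x hx
    induction hx using closure_induction with
    | mem z hz =>
      rcases hz with rfl | hz
      · rw [← hb, mul_inv_cancel_right]
        exact subset_closure (by simp)
      · rw [Set.mem_singleton_iff] at hz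
        rw [hz]
        have h1 : b * a * b⁻¹ = ⁅a, b⁆⁻¹ * a := by rw [commutatorElement_def]; group
        rw [h1]
        exact mul_mem (inv_mem (subset_closure (by simp))) (subset_closure (by simp))
    | one => rw [mul_one, mul_inv_cancel]; exact one_mem _
    | mul x y _ _ hx hy =>
      have h1 : b * (x * y) * b⁻¹ = (b * x * b⁻¹) * (b * y * b⁻¹) := by group
      rw [h1]; exact mul_mem hx hy
    | inv x _ hx =>
      have h1 : b * x⁻¹ * b⁻¹ = (b * x * b⁻¹)⁻¹ := by group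
      rw [h1]; exact inv_mem hx
  have h := sup_finite hAf (hper b).finite_zpowers (zpowers_le_normalizer hAf hinv)
  refine h.subset ?_
  have h2 : closure {a, b} ≤ closure {⁅a, b⁆, a} ⊔ zpowers b := by
    rw [closure_le]
    rintro x (rfl | hx)
    · exact (le_sup_left : _ ≤ closure {⁅x, b⁆, x} ⊔ zpowers b) (subset_closure (by simp))
    · rw [Set.mem_singleton_iff] at hx
      rw [hx]
      exact (le_sup_right : _ ≤ closure {⁅a, b⁆, a} ⊔ zpowers b) (mem_zpowers b)
  exact h2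

/-- no nontrivial fusion of powers -/
def NF (t : G) : Prop := ∀ g : G, ∀ i : ℤ, g * t * g⁻¹ = t ^ i → g * t * g⁻¹ = t

theorem NF.conj {t : G} (h : NF t) (n : G) : NF (n * t * n⁻¹) := by
  intro g i hg
  have h1 : (n⁻¹ * g * n) * t * (n⁻¹ * g * n)⁻¹ = t ^ i := by
    calc (n⁻¹ * g * n) * t * (n⁻¹ * g * n)⁻¹ = n⁻¹ * (g * (n * t * n⁻¹) * g⁻¹) * n := by group
      _ = n⁻¹ * (n * t * n⁻¹) ^ i * n := by rw [hg]
      _ = t ^ i := by rw [conj_zpow]; group
  have h2 := h _ _ h1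
  calc g * (n * t * n⁻¹) * g⁻¹ = n * ((n⁻¹ * g * n) * t * (n⁻¹ * g * n)⁻¹) * n⁻¹ := by group
    _ = n * t * n⁻¹ := by rw [h2]

theorem NF.two {t : G} (ht : t ^ 2 = 1) : NF t := by
  intro g i hg
  rcases sq_zpow ht i with h | h
  · rw [h] at hg
    have h1 : t = g⁻¹ * (g * t * g⁻¹) * g := by group
    rw [hg] at h1
    have h2 : t = 1 := by rw [h1]; group
    rw [h2]
    group
  · rw [hg, h]

/-- conjugates of an element without fusion lie in one coset of the derived subgroup of the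
group generated by the two elements -/
theorem ZCls.coset (hG : ZCls G) {p : ℕ} (hp : p.Prime) {u : G} (hu : u ^ p = 1) (hNF : NF u)
    (g : G) : (g * u * g⁻¹) * u⁻¹ ∈ ⁅closure {u, g * u * g⁻¹}, closure {u, g * u * g⁻¹}⁆ := by
  by_cases hu1 : u = 1
  · rw [hu1]
    have h1 : g * 1 * g⁻¹ * (1 : G)⁻¹ = 1 := by group
    rw [h1]
    exact one_mem _
  have hv : (g * u * g⁻¹) ^ p = 1 := by rw [conj_pow, hu]; group
  obtain ⟨_, _, hfv, n, hn, h, _, h1, h2, h3⟩ := hG.pre.step1 hp hu hv (hG.pair hp hu g)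
  obtain ⟨i, hi⟩ := hG.mem_zpowers hp hu h3 h2 hu1
  obtain ⟨m, hm, hm1⟩ := hfv.conj n⁻¹ (inv_mem hn)
  have h4 : (m * g) * u * (m * g)⁻¹ = u ^ i := by
    calc (m * g) * u * (m * g)⁻¹ = m * (g * u * g⁻¹) * m⁻¹ := by group
      _ = n⁻¹ * (g * u * g⁻¹) := hm1
      _ = n⁻¹ * (n * h) := by rw [← h1]
      _ = u ^ i := by rw [hi]; group
  have h5 := hNF _ _ h4
  have h6 : h = u := by rw [← hi, ← h4, h5]
  rw [h6] at h1
  have h7 : g * u * g⁻¹ * u⁻¹ = n := by rw [h1]; group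
  rw [h7]
  exact hn

/-- **Lemma A**, odd case -/
theorem ZCls.lemmaA_odd (hG : ZCls G) {p : ℕ} (hp : p.Prime) (hodd : Odd p) {t : G}
    (ht : t ^ p = 1) (hNF : NF t) {N N' : Subgroup G} (hN : Fpf t N) (hN' : Fpf t N') :
    Comm2 N N' := by
  have hrel : ∀ a ∈ N, ∀ b ∈ N', ⁅t * a * t⁻¹, b⁆ = ⁅a⁻¹, (t * b * t⁻¹)⁻¹⁆ := by
    intro a ha b hb
    obtain ⟨n, _, hn1⟩ := hN.conj a⁻¹ (N.inv_mem ha)
    obtain ⟨m, _, hm1⟩ := hN'.conj b hb
    have hu : (a⁻¹ * t) ^ p = 1 := hN.pow ht (N.inv_mem ha)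
    have hv : (m * n⁻¹) * (a⁻¹ * t) * (m * n⁻¹)⁻¹ = b * t := by
      rw [← hn1, ← hm1]; group
    have hNFu : NF (a⁻¹ * t) := by rw [← hn1]; exact hNF.conj n
    have hfin := hG.pair hp hu (m * n⁻¹)
    have hc := hG.coset hp hu hNFu (m * n⁻¹)
    rw [hv] at hfin hc
    have h1 : b * t * (a⁻¹ * t)⁻¹ = b * a := by group
    rw [h1] at hc
    have hbt : (b * t) ^ p = 1 := hN'.pow ht hb
    exact hG.pre.rel hp ht hN hN' ha hb hfin ((hG.pre.step1 hp hu hbt hfin).1 _ hc)
  have h := iter_rel hodd ht hN hN' hrel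
  have h' : ∀ b ∈ N', ∀ a ∈ N, ⁅b, a⁆ = ⁅b⁻¹, a⁻¹⁆ := by
    intro b hb a ha
    rw [← commutatorElement_inv, h a ha b hb, commutatorElement_inv]
  intro a ha b hb
  obtain ⟨k, hk⟩ := hG.odd_order hN ha
  obtain ⟨l, hl⟩ := hG.odd_order hN' hb
  have ha2 : a ^ 2 ∈ N := N.pow_mem ha 2
  have hb2 : b ^ 2 ∈ N' := N'.pow_mem hb 2
  have h1 : Commute a (b * a * b⁻¹) := odd_engel hk (h a ha b hb) (h _ ha2 b hb)
  have h2 : Commute b (a * b * a⁻¹) := odd_engel hl (h' b hb a ha) (h' _ hb2 a ha)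
  have h3 : ⁅a, b⁆ * a = a * ⁅a, b⁆ := by
    have e1 : ⁅a, b⁆ = a * (b * a * b⁻¹)⁻¹ := by rw [commutatorElement_def]; group
    rw [e1]
    exact ((Commute.refl a).mul_left h1.symm.inv_left).eq
  have h4 : ⁅a, b⁆ * b = b * ⁅a, b⁆ := by
    have e1 : ⁅a, b⁆ = (a * b * a⁻¹) * b⁻¹ := by rw [commutatorElement_def]
    rw [e1]
    exact (h2.symm.mul_left (Commute.refl b).inv_left).eq
  exact hG.pre.comm_of_central h3 h4 (finite_of_central hG.per h3 h4)

/-- involutions: the case of prime order -/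
theorem ZCls.two_prime (hG : ZCls G) {q : ℕ} (hq : q.Prime) (hq2 : q ≠ 2) {t a b : G}
    (ht : t ^ 2 = 1) (ha : a ^ q = 1) (hta : t * a * t⁻¹ = a⁻¹) (htb : t * b * t⁻¹ = b⁻¹)
    {l : ℕ} (hb : b ^ (2 * l + 1) = 1) : b * a * b⁻¹ = a := by
  by_cases ha1 : a = 1
  · rw [ha1]; group
  have hqodd : Odd q := hq.odd_of_ne_two hq2
  have hsq : ∀ x : G, x ^ q = 1 → x ^ 2 = 1 → x = 1 := fun x h1 h2 =>
    eq_one_of_pow h1 h2 ((Nat.coprime_primes hq Nat.prime_two).2 hq2)
  have ht1 : t ≠ 1 := by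
    rintro rfl
    apply ha1
    apply hsq a ha
    rw [one_mul, inv_one, mul_one] at hta
    rw [sq]
    nth_rewrite 1 [hta]
    exact inv_mul_cancel a
  have hj2 : (b * t) * (b * t) = 1 := by
    have h1 : (b * t) * (b * t) = b * (t * b * t⁻¹) * t ^ 2 := by rw [sq]; group
    rw [h1, htb, ht]
    group
  have hj1 : b * t ≠ 1 := by
    intro h
    apply ht1
    have h1 : b = t⁻¹ := eq_inv_of_mul_eq_one_left h
    rw [h1, inv_pow, inv_eq_one] at hb
    refine eq_one_of_pow ht hb ?_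
    exact (Nat.coprime_two_left).2 ⟨l, rfl⟩
  set j := b * t with hj
  set a' := b * a * b⁻¹ with ha'
  have hja : j * a * j⁻¹ = a'⁻¹ := by
    have h1 : j * a * j⁻¹ = b * (t * a * t⁻¹) * b⁻¹ := by rw [hj]; group
    rw [h1, hta, ha']
    group
  have hjinv : j⁻¹ = j := inv_eq_of_mul_eq_one_left hj2
  have hja' : j * a' * j⁻¹ = a⁻¹ := by
    have h1 : a' = (j * a * j⁻¹)⁻¹ := by rw [hja, inv_inv]
    rw [h1]
    have h2 : j * (j * a * j⁻¹)⁻¹ * j⁻¹ = (j * j) * a⁻¹ * (j * j)⁻¹ := by group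
    rw [h2, hj2]
    group
  have ha'q : a' ^ q = 1 := by rw [ha', conj_pow, ha]; group
  have hAf := hG.pair hq ha b
  rw [← ha'] at hAf
  obtain ⟨hpp, hfa, _, n, hn, h, _, h1, h2, h3⟩ := hG.pre.step1 hq ha ha'q hAf
  obtain ⟨i, hi⟩ := hG.mem_zpowers hq ha h3 h2 ha1
  set A := closure {a, a'} with hAd
  have haA : a ∈ A := subset_closure (by simp)
  have ha'A : a' ∈ A := subset_closure (by simp)
  have hAN := le_normalizer_der A
  -- j normalises A
  have hjA : ∀ x ∈ A, j * x * j⁻¹ ∈ A := by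
    intro x hx
    induction hx using closure_induction with
    | mem z hz =>
      rcases hz with rfl | hz
      · rw [hja]; exact inv_mem ha'A
      · rw [Set.mem_singleton_iff] at hz
        rw [hz, hja']; exact inv_mem haA
    | one => rw [mul_one, mul_inv_cancel]; exact one_mem _
    | mul x y _ _ hx hy =>
      have h1 : j * (x * y) * j⁻¹ = (j * x * j⁻¹) * (j * y * j⁻¹) := by group
      rw [h1]; exact mul_mem hx hy
    | inv x _ hx =>
      have h1 : j * x⁻¹ * j⁻¹ = (j * x * j⁻¹)⁻¹ := by group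
      rw [h1]; exact inv_mem hx
  have hjAder : ∀ x ∈ ⁅A, A⁆, j * x * j⁻¹ ∈ ⁅A, A⁆ := by
    intro x hx
    have h4 : ⁅A, A⁆ ≤ ⁅A, A⁆.comap (MulAut.conj j).toMonoidHom := by
      rw [Subgroup.commutator_le]
      intro c hc d hd
      show j * ⁅c, d⁆ * j⁻¹ ∈ ⁅A, A⁆
      have h5 : j * ⁅c, d⁆ * j⁻¹ = ⁅j * c * j⁻¹, j * d * j⁻¹⁆ := by
        simp only [commutatorElement_def]; group
      rw [h5]
      exact Subgroup.commutator_mem_commutator (hjA c hc) (hjA d hd)
    exact h4 hx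
  -- the exponent i is 1 or -1
  have hi2 : a ^ (i * i - 1) = 1 := by
    have hmod : a ^ (i * i - 1) ∈ ⁅A, A⁆ := by
      -- compute in the quotient
      let X : normalizer ((⁅A, A⁆ : Subgroup G) : Set G) := ⟨a, hAN haA⟩
      let Nn : normalizer ((⁅A, A⁆ : Subgroup G) : Set G) := ⟨n, hAN (der_le A hn)⟩
      let W : normalizer ((⁅A, A⁆ : Subgroup G) : Set G) :=
        ⟨j * n * j⁻¹, hAN (der_le A (hjAder n hn))⟩
      let π := QuotientGroup.mk' ((⁅A, A⁆ : Subgroup G).subgroupOf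
        (normalizer ((⁅A, A⁆ : Subgroup G) : Set G)))
      have hk : ∀ z : normalizer ((⁅A, A⁆ : Subgroup G) : Set G), π z = 1 ↔ (z : G) ∈ ⁅A, A⁆ := by
        intro z
        rw [← MonoidHom.mem_ker, QuotientGroup.ker_mk']
        exact Iff.rfl
      have hN1 : π Nn = 1 := (hk _).2 hn
      have hW1 : π W = 1 := (hk _).2 (hjAder n hn)
      have e1 : W * ((Nn * X ^ i)⁻¹) ^ i = X⁻¹ := by
        apply Subtype.ext
        show j * n * j⁻¹ * ((n * a ^ i)⁻¹) ^ i = a⁻¹
        have e2 : n * a ^ i = a' := by rw [hi, ← h1]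
        have e3 : a'⁻¹ ^ i = j * a ^ i * j⁻¹ := by rw [← hja, conj_zpow]
        rw [e2, e3]
        calc j * n * j⁻¹ * (j * a ^ i * j⁻¹) = j * (n * a ^ i) * j⁻¹ := by group
          _ = a⁻¹ := by rw [e2, hja']
      have e4 := congrArg π e1
      rw [map_mul, map_zpow, map_inv, map_mul, map_zpow, map_inv, hN1, hW1, one_mul, one_mul] at e4
      have e5 : π (X ^ (i * i - 1)) = 1 := by
        rw [map_zpow]
        have e6 : (π X ^ i)⁻¹ ^ i = π X ^ (-(i * i)) := by
          rw [inv_zpow, ← zpow_mul, zpow_neg]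
        rw [e6] at e4
        have e7 : π X ^ (i * i - 1) = (π X ^ (-(i * i)))⁻¹ * (π X)⁻¹ := by
          rw [zpow_neg, inv_inv, zpow_sub, zpow_one]
        rw [e7, e4]
        group
      exact (hk _).1 e5
    obtain ⟨m, hm, hm1⟩ := hpp _ hmod
    refine eq_one_of_pow (b := m) (a := q) ?_ hm1 ((hq.coprime_iff_not_dvd).2 hm)
    rw [← zpow_natCast, ← zpow_mul, mul_comm, zpow_mul, zpow_natCast, ha, one_zpow]
  have hcase : a ^ i = a ∨ a ^ i = a⁻¹ := by
    have hfact : Fact q.Prime := ⟨hq⟩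
    have hord : orderOf a = q := orderOf_eq_prime ha ha1
    have hd : (q : ℤ) ∣ i * i - 1 := by
      rw [← hord]
      exact orderOf_dvd_iff_zpow_eq_one.2 hi2
    have hd2 : (q : ℤ) ∣ (i - 1) * (i + 1) := by
      have : (i - 1) * (i + 1) = i * i - 1 := by ring
      rw [this]; exact hd
    rcases (Nat.prime_iff_prime_int.1 hq).dvd_or_dvd hd2 with h4 | h4
    · left
      have h5 : a ^ (i - 1) = 1 := by
        rw [← orderOf_dvd_iff_zpow_eq_one, hord]; exact h4
      rw [zpow_sub, zpow_one, mul_inv_eq_one] at h5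
      exact h5
    · right
      have h5 : a ^ (i + 1) = 1 := by
        rw [← orderOf_dvd_iff_zpow_eq_one, hord]; exact h4
      rw [zpow_add, zpow_one] at h5
      exact eq_inv_of_mul_eq_one_left h5
  rcases hcase with hc | hc
  · -- a' = n a
    have hB := sup_finite hAf (hG.per j).finite_zpowers (zpowers_le_normalizer hAf hjA)
    rw [← hi, hc] at h1
    have haB : a ∈ A ⊔ zpowers j := (le_sup_left : A ≤ A ⊔ zpowers j) haA
    have hjB : j ∈ A ⊔ zpowers j := (le_sup_right : zpowers j ≤ A ⊔ zpowers j) (Subgroup.mem_zpowers j)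
    have hAB : ⁅A, A⁆ ≤ ⁅A ⊔ zpowers j, A ⊔ zpowers j⁆ :=
      Subgroup.commutator_mono le_sup_left le_sup_left
    have h4 : ⁅a, j⁆ ∈ ⁅A ⊔ zpowers j, A ⊔ zpowers j⁆ :=
      Subgroup.commutator_mem_commutator haB hjB
    have h5 : ⁅a, j⁆ = (a * n * a⁻¹) * a ^ 2 := by
      have h6 : ⁅a, j⁆ = a * (j * a * j⁻¹)⁻¹ := by rw [commutatorElement_def]; group
      rw [h6, hja, inv_inv, h1, sq]
      group
    have h6 : a * n * a⁻¹ ∈ ⁅A ⊔ zpowers j, A ⊔ zpowers j⁆ := hAB (der_conj haA hn)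
    have h7 : a ^ 2 ∈ ⁅A ⊔ zpowers j, A ⊔ zpowers j⁆ := by
      have h8 : a ^ 2 = (a * n * a⁻¹)⁻¹ * ⁅a, j⁆ := by rw [h5]; group
      rw [h8]
      exact mul_mem (inv_mem h6) h4
    have h8 : a ∈ ⁅A ⊔ zpowers j, A ⊔ zpowers j⁆ := by
      refine mem_of_pow_mem h7 (b := q) (by rw [ha]; exact one_mem _) ?_
      exact (Nat.coprime_primes Nat.prime_two hq).2 (fun h => hq2 h.symm)
    have h9 := hG.pre.der_comm hB n (hAB hn) a h8
    have h10 := hfa.fix n hn h9
    rw [h10, one_mul] at h1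
    exact h1
  · -- a' = n a^-1: an involution which commutes with a
    exfalso
    rw [← hi, hc] at h1
    have h4 : ⁅j, a⁆ ∈ ⁅A, A⁆ := by
      have h5 : ⁅j, a⁆ = a * n⁻¹ * a⁻¹ := by
        rw [commutatorElement_def, hja, h1]
        group
      rw [h5]
      exact der_conj haA (inv_mem hn)
    obtain ⟨k, hk, hk1⟩ := hfa.surj _ h4
    have h5 : k * a * k⁻¹ = j * a * j⁻¹ := by
      have h6 : ⁅k, a⁆ * a = ⁅j, a⁆ * a := by rw [hk1]
      simpa only [commutatorElement_def, inv_mul_cancel_right] using h6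
    have h6 : (k⁻¹ * j) * a = a * (k⁻¹ * j) := by
      calc (k⁻¹ * j) * a = k⁻¹ * (j * a * j⁻¹) * j := by group
        _ = k⁻¹ * (k * a * k⁻¹) * j := by rw [h5]
        _ = a * (k⁻¹ * j) := by group
    have h7 : (k⁻¹ * j) * (k⁻¹ * j) = 1 := by
      have h8 : (k⁻¹ * j) * (k⁻¹ * j) = k⁻¹ * (j * k⁻¹ * j⁻¹) * (j * j) := by group
      rw [hj2, mul_one] at h8
      have h9 : (k⁻¹ * j) * (k⁻¹ * j) ∈ ⁅A, A⁆ := by
        rw [h8]
        exact mul_mem (inv_mem hk) (hjAder _ (inv_mem hk))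
      apply hfa.fix _ h9
      have h10 : Commute (k⁻¹ * j) a := h6
      exact (h10.mul_left h10).eq
    set j1 := k⁻¹ * j with hj1d
    have hj11 : j1 ≠ 1 := by
      intro h8
      have h9 : j = k := by
        have : k * j1 = j := by rw [hj1d]; group
        rw [← this, h8, mul_one]
      obtain ⟨m, hm⟩ := hG.odd_order hfa (a := j) (by rw [h9]; exact hk)
      apply hj1
      refine eq_one_of_pow (a := 2) (b := 2 * m + 1) (by rw [sq]; exact hj2) hm ?_
      exact (Nat.coprime_two_left).2 ⟨m, rfl⟩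
    have hj12 : j1 ^ 2 = 1 := by rw [sq]; exact h7
    have hj1inv : j1⁻¹ = j1 := inv_eq_of_mul_eq_one_left h7
    have htinv : t⁻¹ = t := by
      rw [sq] at ht
      exact inv_eq_of_mul_eq_one_left ht
    have hj1a : j1 * a * j1⁻¹ = a := by rw [h6, mul_inv_cancel_right]
    -- t and j1 are different
    have htj : ¬ (j1 * t = t * j1) := by
      intro h8
      have h9 := hG.invol_eq ht hj12 h8 ht1 hj11
      apply ha1
      apply hsq a ha
      rw [h9] at hj1a
      rw [hta] at hj1a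
      rw [sq]
      nth_rewrite 1 [← hj1a]
      exact inv_mul_cancel a
    set c := t * j1 with hcd
    have hca : c * a * c⁻¹ = a⁻¹ := by
      have h8 : c * a * c⁻¹ = t * (j1 * a * j1⁻¹) * t⁻¹ := by rw [hcd]; group
      rw [h8, hj1a, hta]
    have hca' : c * a⁻¹ * c⁻¹ = a := by
      have h8 : c * a⁻¹ * c⁻¹ = (c * a * c⁻¹)⁻¹ := by group
      rw [h8, hca, inv_inv]
    have htc : t * c * t⁻¹ = c⁻¹ := by
      rw [hcd, mul_inv_rev, hj1inv, htinv]
      have h8 : t * (t * j1) * t = (t * t) * j1 * t := by group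
      rw [h8]
      rw [sq] at ht
      rw [ht, one_mul]
    have hpow : ∀ m : ℕ, c ^ (2 * m) * a * (c ^ (2 * m))⁻¹ = a := by
      intro m
      induction m with
      | zero => simp
      | succ m ih =>
        have h8 : c ^ (2 * (m + 1)) * a * (c ^ (2 * (m + 1)))⁻¹ =
            c * (c * (c ^ (2 * m) * a * (c ^ (2 * m))⁻¹) * c⁻¹) * c⁻¹ := by
          rw [show 2 * (m + 1) = 2 * m + 1 + 1 by ring, pow_succ', pow_succ']
          group
        rw [h8, ih, hca, hca']
    rcases Nat.even_or_odd (orderOf c) with ⟨m, hm⟩ | ⟨m, hm⟩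
    · have hpos : 0 < orderOf c := orderOf_pos_iff.2 (hG.per c)
      have hz1 : c ^ m ≠ 1 := by
        intro h8
        have h9 := Nat.le_of_dvd (by omega) (orderOf_dvd_of_pow_eq_one h8)
        omega
      have hz2 : (c ^ m) ^ 2 = 1 := by
        rw [← pow_mul, mul_two, ← hm, pow_orderOf_eq_one]
      have hzinv : (c ^ m)⁻¹ = c ^ m := by
        rw [sq] at hz2
        exact inv_eq_of_mul_eq_one_left hz2
      have hzt : c ^ m * t = t * c ^ m := by
        have h8 : t * c ^ m * t⁻¹ = c ^ m := by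
          rw [← conj_pow, htc, inv_pow, hzinv]
        calc c ^ m * t = t * c ^ m * t⁻¹ * t := by rw [h8]
          _ = t * c ^ m := by group
      have h8 := hG.invol_eq ht hz2 hzt ht1 hz1
      apply htj
      have h9 : c * t = t * c := by
        rw [← h8]
        exact ((Commute.refl c).pow_right m).eq
      rw [hcd] at h9
      have h10 : t * (j1 * t) = t * (t * j1) := by
        calc t * (j1 * t) = t * j1 * t := by group
          _ = t * (t * j1) := h9
      exact mul_left_cancel h10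
    · apply ha1
      apply hsq a ha
      have h8 := hpow m
      have h9 : c ^ (2 * m) = c⁻¹ := by
        have h10 : c ^ (2 * m + 1) = 1 := by rw [← hm, pow_orderOf_eq_one]
        rw [pow_succ] at h10
        exact eq_inv_of_mul_eq_one_left h10
      rw [h9] at h8
      have h10 : a⁻¹ = a := by
        calc a⁻¹ = c * a * c⁻¹ := hca.symm
          _ = c * (c⁻¹ * a * c⁻¹⁻¹) * c⁻¹ := by rw [h8]
          _ = a := by group
      rw [sq]
      nth_rewrite 1 [← h10]
      exact inv_mul_cancel a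

end Pool.Agent.Lib.MP_032401_al.Z
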