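import Pool.Agent.Lib.MP_032401_al.Z.Conj

/-!
# MP_032401_al: conjugacy biprimitively finite groups with cyclic finite `p`-subgroups are locally
finite
-/

set_option autoImplicit false

namespace Pool.Agent.Lib.MP_032401_al.Z

open Subgroup
open scoped commutatorElement

variable {G : Type} [Group G]

/-- a finite set of elements of the radical and one more element generate a finite subgroup -/
theorem Pre.LF_rad_sup (hG : Pre G) (g : G) : LF (rad (⊤ : Subgroup G) ⊔ zpowers g) :=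
  (LF_rad _).sup (LF.of_finite (hG.per g).finite_zpowers)
    (le_top.trans (le_normalizer_rad (⊤ : Subgroup G)))

theorem Pre.Bsub_comm (hG : Pre G) : ∀ b ∈ Bsub G, ∀ c ∈ Bsub G, b * c = c * b := by
  intro b hb c hc
  refine hG.comm_of_central (hb.2 b hb.1 c hc.1).symm (hc.2 b hb.1 c hc.1).symm ?_
  refine LF_rad (⊤ : Subgroup G) {b, c} (by simp) ?_
  rintro x (rfl | hx)
  · exact hb.1
  · rw [Set.mem_singleton_iff] at hx
    rw [hx]; exact hc.1

theorem Pre.comm_mem_Bsub (hG : Pre G) {w : G} (hw : w ∈ rad (⊤ : Subgroup G)) (g : G) :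
    ⁅w, g⁆ ∈ Bsub G := by
  refine ⟨?_, fun r hr r' hr' => ?_⟩
  · have h1 : ⁅w, g⁆ = w * (g * w⁻¹ * g⁻¹) := by rw [commutatorElement_def]; group
    rw [h1]
    exact mul_mem hw (rad_conj (inv_mem hw) g)
  · have hfin := hG.LF_rad_sup g {w, g, r, r'} (by simp) (by
      rintro x (rfl | rfl | rfl | hx)
      · exact (le_sup_left : _ ≤ rad (⊤ : Subgroup G) ⊔ zpowers g) hw
      · exact (le_sup_right : _ ≤ rad (⊤ : Subgroup G) ⊔ zpowers x) (Subgroup.mem_zpowers x)
      · exact (le_sup_left : _ ≤ rad (⊤ : Subgroup G) ⊔ zpowers g) hr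
      · rw [Set.mem_singleton_iff] at hx
        rw [hx]
        exact (le_sup_left : _ ≤ rad (⊤ : Subgroup G) ⊔ zpowers g) hr')
    exact hG.met _ hfin w (subset_closure (by simp)) g (subset_closure (by simp)) r
      (subset_closure (by simp)) r' (subset_closure (by simp))

/-- the commutator of a `q`-element of the radical and a `q`-element is a `q'`-element -/
theorem Pre.comm_rad_pprime (hG : Pre G) {q : ℕ} (hq : q.Prime) {w g : G}
    (hw : w ∈ rad (⊤ : Subgroup G)) (hwq : ∃ j : ℕ, w ^ q ^ j = 1)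
    (hgq : ∃ j : ℕ, g ^ q ^ j = 1) : ∃ m : ℕ, ¬ q ∣ m ∧ ⁅w, g⁆ ^ m = 1 := by
  refine hG.comm_pprime hq hwq hgq (hG.LF_rad_sup g {w, g} (by simp) ?_)
  rintro x (rfl | hx)
  · exact (le_sup_left : _ ≤ rad (⊤ : Subgroup G) ⊔ zpowers g) hw
  · rw [Set.mem_singleton_iff] at hx
    rw [hx]
    exact (le_sup_right : _ ≤ rad (⊤ : Subgroup G) ⊔ zpowers g) (Subgroup.mem_zpowers g)

/-- The last step: a `q`-element `g` whose `q`-th power is in the radical is in the radical, if
the image of `g` in the section `N(⟨g^q⟩)/⟨g^q⟩` has no fusion. -/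
theorem ZCls.step4 (hG : ZCls G) {q : ℕ} (hq : q.Prime) {g : G} (hgq : ∃ j : ℕ, g ^ q ^ j = 1)
    (hx : g ^ q ∈ rad (⊤ : Subgroup G))
    (hNF : ∀ c ∈ normalizer ((zpowers (g ^ q) : Subgroup G) : Set G), ∀ i : ℤ,
      c * g * c⁻¹ * (g ^ i)⁻¹ ∈ zpowers (g ^ q) → c * g * c⁻¹ * g⁻¹ ∈ zpowers (g ^ q)) :
    g ∈ rad (⊤ : Subgroup G) := by
  set x := g ^ q with hxd
  have hxq : ∃ j : ℕ, x ^ q ^ j = 1 := by
    obtain ⟨j, hj⟩ := hgq
    refine ⟨j, ?_⟩
    rw [hxd, ← pow_mul, mul_comm, pow_mul, hj, one_pow]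
  -- the abelian normal subgroup
  let M := pprime (Bsub G) hG.pre.Bsub_comm q hq
  have hMB : M ≤ Bsub G := fun a ha => ha.1
  have hMc : ∀ a ∈ M, ∀ b ∈ M, a * b = b * a := fun a ha b hb =>
    hG.pre.Bsub_comm a (hMB ha) b (hMB hb)
  have hMn : ∀ h : G, ∀ a ∈ M, h * a * h⁻¹ ∈ M := by
    rintro h a ⟨ha, m, hm, ham⟩
    refine ⟨Bsub_conj h ha, m, hm, ?_⟩
    rw [conj_pow, ham]
    group
  have hMLF : LF M := (LF_rad (⊤ : Subgroup G)).mono fun a ha => (hMB ha).1
  -- the normal subgroup K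
  let S : Set G := {k | (∃ j : ℕ, k ^ q ^ j = 1) ∨ k ∈ M}
  have hSn : ∀ h : G, ∀ s ∈ S, h * s * h⁻¹ ∈ S := by
    rintro h s (⟨j, hj⟩ | hs)
    · left
      refine ⟨j, ?_⟩
      rw [conj_pow, hj]
      group
    · right
      exact hMn h s hs
  have hKn := closure_conj hSn
  have hgK : g ∈ closure S := subset_closure (Or.inl hgq)
  have hMK : M ≤ closure S := fun a ha => subset_closure (Or.inr ha)
  have hxK : x ∈ closure S := pow_mem hgK q
  -- commutators with x
  have hcom : ∀ k ∈ closure S, ⁅k, x⁆ ∈ M := by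
    intro k hk
    induction hk using closure_induction with
    | mem k hk =>
      rcases hk with hk | hk
      · rw [← commutatorElement_inv]
        exact inv_mem ⟨hG.pre.comm_mem_Bsub hx k, hG.pre.comm_rad_pprime hq hx hxq hk⟩
      · exact comm_mem (hMn x) hk
    | one => rw [commutatorElement_one_left]; exact one_mem _
    | mul a b _ _ iha ihb =>
      have h1 : ⁅a * b, x⁆ = a * ⁅b, x⁆ * a⁻¹ * ⁅a, x⁆ := by
        simp only [commutatorElement_def]; group
      rw [h1]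
      exact mul_mem (hMn a _ ihb) iha
    | inv a _ iha =>
      have h1 : ⁅a⁻¹, x⁆ = a⁻¹ * ⁅a, x⁆⁻¹ * a⁻¹⁻¹ := by
        simp only [commutatorElement_def]; group
      rw [h1]
      exact hMn a⁻¹ _ (inv_mem iha)
  -- the subgroup of the commutators with x
  let D : Subgroup G :=
    { carrier := {d | ∃ v ∈ M, ⁅v, x⁆ = d}
      one_mem' := ⟨1, one_mem _, commutatorElement_one_left x⟩
      mul_mem' := by
        rintro _ _ ⟨k, hk, rfl⟩ ⟨l, hl, rfl⟩
        exact ⟨k * l, mul_mem hk hl, comm_hom hMc (hMn x) hk hl⟩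
      inv_mem' := by
        rintro _ ⟨k, hk, rfl⟩
        refine ⟨k⁻¹, inv_mem hk, ?_⟩
        have h1 := comm_hom hMc (hMn x) hk (inv_mem hk)
        rw [mul_inv_cancel, commutatorElement_one_left] at h1
        exact eq_inv_of_mul_eq_one_right h1.symm }
  have hDM : D ≤ M := by
    rintro _ ⟨v, hv, rfl⟩
    exact comm_mem (hMn x) hv
  have hxD : x ∈ normalizer (D : Set G) := by
    have h1 : zpowers x ≤ normalizer (D : Set G) := by
      rw [Subgroup.le_normalizer_iff]
      rintro _ ⟨i, rfl⟩ _ ⟨v, hv, rfl⟩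
      refine ⟨x ^ i * v * (x ^ i)⁻¹, hMn _ v hv, ?_⟩
      show ⁅x ^ i * v * (x ^ i)⁻¹, x⁆ = x ^ i * ⁅v, x⁆ * (x ^ i)⁻¹
      simp only [commutatorElement_def]
      have h2 : (x ^ i)⁻¹ * x = x * (x ^ i)⁻¹ :=
        ((Commute.refl x).zpow_left i).inv_left.eq
      have h3 : (x ^ i)⁻¹ * x⁻¹ = x⁻¹ * (x ^ i)⁻¹ :=
        ((Commute.refl x).zpow_left i).inv_left.inv_right.eq
      calc x ^ i * v * (x ^ i)⁻¹ * x * (x ^ i * v * (x ^ i)⁻¹)⁻¹ * x⁻¹
          = x ^ i * v * ((x ^ i)⁻¹ * x) * x ^ i * v⁻¹ * ((x ^ i)⁻¹ * x⁻¹) := by group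
        _ = x ^ i * v * (x * (x ^ i)⁻¹) * x ^ i * v⁻¹ * (x⁻¹ * (x ^ i)⁻¹) := by rw [h2, h3]
        _ = x ^ i * (v * x * v⁻¹ * x⁻¹) * (x ^ i)⁻¹ := by group
    exact h1 (Subgroup.mem_zpowers x)
  have hMD : M ≤ normalizer (D : Set G) := by
    rw [Subgroup.le_normalizer_iff]
    intro a ha d hd
    rw [hMc a ha d (hDM hd), mul_inv_cancel_right]
    exact hd
  -- K = M C_K(x)
  have hdec : ∀ k ∈ closure S, ∃ b ∈ M, (b⁻¹ * k) * x = x * (b⁻¹ * k) := by
    intro k hk
    have hm := hcom k hk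
    obtain ⟨j, hj⟩ := hxq
    obtain ⟨d, hd, h1⟩ := mul_pow_mod (hMD hm) hxD ⟨⁅k, x⁆, hm, rfl⟩ (q ^ j)
    have h2 : (⁅k, x⁆ * x) ^ q ^ j = 1 := by
      have h3 : ⁅k, x⁆ * x = k * x * k⁻¹ := by rw [commutatorElement_def]; group
      rw [h3, conj_pow, hj]
      group
    rw [h2, hj, mul_one] at h1
    have h4 : ⁅k, x⁆ ^ q ^ j ∈ D := by
      have h5 : ⁅k, x⁆ ^ q ^ j = d⁻¹ := eq_inv_of_mul_eq_one_right h1.symm
      rw [h5]
      exact inv_mem hd
    obtain ⟨_, m, hm1, hm2⟩ := hm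
    have h6 : ⁅k, x⁆ ∈ D := by
      refine mem_of_pow_mem h4 (b := m) (by rw [hm2]; exact one_mem _) ?_
      exact Nat.Coprime.pow_left j ((hq.coprime_iff_not_dvd).2 hm1)
    obtain ⟨b, hb, hb1⟩ := h6
    refine ⟨b, hb, ?_⟩
    have h7 : b * x * b⁻¹ = k * x * k⁻¹ := by
      have h8 : ⁅b, x⁆ * x = ⁅k, x⁆ * x := by rw [hb1]
      simpa only [commutatorElement_def, inv_mul_cancel_right] using h8
    calc b⁻¹ * k * x = b⁻¹ * (k * x * k⁻¹) * k := by group
      _ = b⁻¹ * (b * x * b⁻¹) * k := by rw [h7]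
      _ = x * (b⁻¹ * k) := by group
  -- the locally finite subgroup V of the centraliser
  have hHf : ((zpowers x : Subgroup G) : Set G).Finite := (hG.per x).finite_zpowers
  have hcN : ∀ c : G, c * x = x * c → c ∈ normalizer ((zpowers x : Subgroup G) : Set G) := by
    intro c hc
    refine zpowers_le_normalizer hHf ?_ (Subgroup.mem_zpowers c)
    rintro _ ⟨i, rfl⟩
    have hc' : c * x ^ i = x ^ i * c := ((show Commute c x from hc).zpow_right i).eq
    show c * x ^ i * c⁻¹ ∈ zpowers x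
    rw [hc', mul_inv_cancel_right]
    exact zpow_mem (Subgroup.mem_zpowers x) i
  have hgx : g * x = x * g := ((Commute.refl g).pow_right q).eq
  let T : Set G := {z | ∃ c ∈ closure S, c * x = x * c ∧ c * g * c⁻¹ = z}
  have hVLF : LF (closure T) := LF.of_closure fun U hU hUT =>
    hG.conj_finite_section hq hHf (hcN g hgx) (Subgroup.mem_zpowers x) hNF hU (by
      intro z hz
      obtain ⟨c, _, hc, hcz⟩ := hUT hz
      exact ⟨c, hcN c hc, hcz⟩)
  have hVK : closure T ≤ closure S := by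
    rw [closure_le]
    rintro z ⟨c, _, _, rfl⟩
    exact hKn c g hgK
  have hgV : g ∈ closure T :=
    subset_closure ⟨1, one_mem _, by rw [one_mul, mul_one], by group⟩
  have hVN : ∀ c ∈ closure S, c * x = x * c →
      c ∈ normalizer ((closure T : Subgroup G) : Set G) := by
    let C : Subgroup G := closure S ⊓ Subgroup.centralizer {x}
    have h1 : C ≤ normalizer ((closure T : Subgroup G) : Set G) := by
      rw [Subgroup.le_normalizer_closure_iff]
      rintro c ⟨hcS, hcx⟩ z ⟨d, hdS, hdx, rfl⟩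
      have hcx' : c * x = x * c := Subgroup.mem_centralizer_singleton_iff.1 hcx
      refine subset_closure ⟨c * d, mul_mem hcS hdS, ?_, by group⟩
      exact ((show Commute c x from hcx').mul_left (show Commute d x from hdx)).eq
    intro c hc hcx
    exact h1 ⟨hc, Subgroup.mem_centralizer_singleton_iff.2 hcx⟩
  -- the normal closure
  have hMN : ∀ h : G, h ∈ normalizer (M : Set G) := by
    intro h
    have h1 : (⊤ : Subgroup G) ≤ normalizer (M : Set G) := by
      rw [Subgroup.le_normalizer_iff]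
      exact fun h _ a ha => hMn h a ha
    exact h1 (Subgroup.mem_top h)
  have hWLF : LF (M ⊔ closure T) := hMLF.sup hVLF fun v _ => hMN v
  have hWK : M ⊔ closure T ≤ closure S := sup_le hMK hVK
  have hWN : closure S ≤ normalizer ((M ⊔ closure T : Subgroup G) : Set G) := by
    intro k hk
    obtain ⟨b, hb, hbk⟩ := hdec k hk
    have hc : b⁻¹ * k ∈ closure S := mul_mem (inv_mem (hMK hb)) hk
    have h1 : b⁻¹ * k ∈ normalizer ((M ⊔ closure T : Subgroup G) : Set G) := by
      have h2 : zpowers (b⁻¹ * k) ≤ normalizer ((M ⊔ closure T : Subgroup G) : Set G) := by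
        refine sup_normalizer (fun z _ => hMN z) ?_
        rw [zpowers_le]
        exact hVN _ hc hbk
      exact h2 (Subgroup.mem_zpowers _)
    have h3 : b ∈ normalizer ((M ⊔ closure T : Subgroup G) : Set G) :=
      le_normalizer ((le_sup_left : M ≤ M ⊔ closure T) hb)
    have h4 := mul_mem h3 h1
    rw [mul_inv_cancel_left] at h4
    exact h4
  exact rad_le_rad hKn ⟨M ⊔ closure T, hWK, hWN, hWLF,
    (le_sup_right : closure T ≤ M ⊔ closure T) hgV⟩

theorem conj_pow_pow {y g : G} {m : ℕ} (h : y * g * y⁻¹ = g ^ m) (f : ℕ) :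
    y ^ f * g * (y ^ f)⁻¹ = g ^ m ^ f := by
  induction f with
  | zero => simp
  | succ f ih =>
    calc y ^ (f + 1) * g * (y ^ (f + 1))⁻¹ = y * (y ^ f * g * (y ^ f)⁻¹) * y⁻¹ := by
          rw [pow_succ']; group
      _ = y * g ^ m ^ f * y⁻¹ := by rw [ih]
      _ = (y * g * y⁻¹) ^ m ^ f := by rw [conj_pow]
      _ = g ^ m ^ (f + 1) := by rw [h, ← pow_mul, pow_succ']

/-- the fusion hypothesis holds when the elements of smaller prime power order are in the
radical -/
theorem ZCls.fusion (hG : ZCls G) {q : ℕ} (hq : q.Prime) {g : G}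
    (hgq : ∃ j : ℕ, g ^ q ^ j = 1) (hg : g ∉ rad (⊤ : Subgroup G))
    (hsmall : ∀ e : ℕ, e.Prime → e < q → ∀ y : G, (∃ j : ℕ, y ^ e ^ j = 1) →
      y ∈ rad (⊤ : Subgroup G)) {c : G} {m : ℕ} (hc : c * g * c⁻¹ = g ^ m) :
    m ≡ 1 [MOD q] := by
  have hfact : Fact q.Prime := ⟨hq⟩
  by_contra hm
  have hm1 : (m : ZMod q) ≠ 1 := by
    intro h
    apply hm
    have h2 : (m : ZMod q) = ((1 : ℕ) : ZMod q) := by rw [h, Nat.cast_one]
    exact (ZMod.natCast_eq_natCast_iff m 1 q).1 h2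
  obtain ⟨j, hj⟩ := hgq
  -- j is positive and the order of g is divisible by q
  have hqg : q ∣ orderOf g := by
    by_contra h
    apply hg
    have h1 : orderOf g ∣ q ^ j := orderOf_dvd_of_pow_eq_one hj
    have h2 : orderOf g = 1 := by
      obtain ⟨i, _, hi⟩ := (Nat.dvd_prime_pow hq).1 h1
      rcases Nat.eq_zero_or_pos i with h0 | h0
      · rw [hi, h0, pow_zero]
      · exact absurd (by rw [hi]; exact dvd_pow_self q h0.ne') h
    rw [orderOf_eq_one_iff.1 h2]
    exact one_mem _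
  -- the order of c
  have hN0 : 0 < orderOf c := orderOf_pos_iff.2 (hG.per c)
  have hmod : ∀ f : ℕ, c ^ f = 1 → (m : ZMod q) ^ f = 1 := by
    intro f hf
    have h1 := conj_pow_pow hc f
    rw [hf] at h1
    have h2 : g ^ m ^ f = g ^ 1 := by rw [← h1, pow_one]; group
    rw [pow_eq_pow_iff_modEq] at h2
    have h3 : m ^ f ≡ 1 [MOD q] := h2.of_dvd hqg
    have h4 := (ZMod.natCast_eq_natCast_iff (m ^ f) 1 q).2 h3
    rw [Nat.cast_pow, Nat.cast_one] at h4
    exact h4
  have hcN := hmod _ (pow_orderOf_eq_one c)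
  have hm0 : (m : ZMod q) ≠ 0 := by
    intro h
    rw [h, zero_pow hN0.ne'] at hcN
    exact zero_ne_one hcN
  set d := orderOf (m : ZMod q) with hd
  have hd1 : d ≠ 1 := fun h => hm1 (orderOf_eq_one_iff.1 h)
  have hdN : d ∣ orderOf c := orderOf_dvd_of_pow_eq_one hcN
  have hdq : d ∣ q - 1 := orderOf_dvd_of_pow_eq_one (ZMod.pow_card_sub_one_eq_one hm0)
  obtain ⟨e, he, hed⟩ := Nat.exists_prime_and_dvd hd1
  have heq : e < q := by
    have h1 := Nat.le_of_dvd (by have := hq.two_le; omega) (hed.trans hdq)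
    have := hq.two_le
    omega
  obtain ⟨a, f, hf, haf⟩ := Nat.exists_eq_pow_mul_and_not_dvd (n := orderOf c) hN0.ne' e
    he.one_lt.ne'
  have hy : (c ^ f) ^ e ^ a = 1 := by
    rw [← pow_mul, mul_comm, ← haf, pow_orderOf_eq_one]
  have hyR := hsmall e he heq (c ^ f) ⟨a, hy⟩
  have hmf : (m : ZMod q) ^ f ≠ 1 := by
    intro h
    exact hf (hed.trans (orderOf_dvd_of_pow_eq_one h))
  -- the commutator is in the radical
  have h1 := conj_pow_pow hc f
  have h2 : g ^ ((m : ℤ) ^ f - 1) ∈ rad (⊤ : Subgroup G) := by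
    have h3 : g ^ ((m : ℤ) ^ f - 1) = c ^ f * (g * (c ^ f)⁻¹ * g⁻¹) := by
      rw [zpow_sub, zpow_one]
      have h4 : g ^ ((m : ℤ) ^ f) = g ^ m ^ f := by
        rw [← zpow_natCast, Nat.cast_pow]
      rw [h4, ← h1]
      group
    rw [h3]
    exact mul_mem hyR (rad_conj (inv_mem hyR) g)
  apply hg
  have hcop : IsCoprime ((m : ℤ) ^ f - 1) ((q : ℤ) ^ j) := by
    apply IsCoprime.pow_right
    rw [isCoprime_comm]
    apply (Nat.prime_iff_prime_int.1 hq).coprime_iff_not_dvd.2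
    intro h
    apply hmf
    have h3 := (ZMod.intCast_zmod_eq_zero_iff_dvd ((m : ℤ) ^ f - 1) q).2 h
    push_cast at h3
    exact sub_eq_zero.1 h3
  obtain ⟨u, v, huv⟩ := hcop
  have h3 : g = (g ^ ((m : ℤ) ^ f - 1)) ^ u * (g ^ ((q : ℤ) ^ j)) ^ v := by
    rw [← zpow_mul, ← zpow_mul, ← zpow_add]
    have h4 : ((m : ℤ) ^ f - 1) * u + (q : ℤ) ^ j * v = 1 := by linear_combination huv
    rw [h4, zpow_one]
  have h4 : g ^ ((q : ℤ) ^ j) = 1 := by
    have h5 : g ^ ((q : ℤ) ^ j) = g ^ q ^ j := by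
      rw [← zpow_natCast, Nat.cast_pow]
    rw [h5, hj]
  rw [h3, h4, one_zpow, mul_one]
  exact zpow_mem h2 u

/-- all elements of prime power order are in the radical -/
theorem ZCls.prime_pow_mem (hG : ZCls G) (n : ℕ) : ∀ q : ℕ, q.Prime → q ≤ n → ∀ g : G,
    (∃ j : ℕ, g ^ q ^ j = 1) → g ∈ rad (⊤ : Subgroup G) := by
  induction n with
  | zero =>
    intro q hq hn
    have := hq.two_le
    omega
  | succ n ih =>
    intro q hq hn
    have hsmall : ∀ e : ℕ, e.Prime → e < q → ∀ y : G, (∃ j : ℕ, y ^ e ^ j = 1) →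
        y ∈ rad (⊤ : Subgroup G) := fun e he heq y hy => ih e he (by omega) y hy
    have key : ∀ j : ℕ, ∀ g : G, g ^ q ^ j = 1 → g ∈ rad (⊤ : Subgroup G) := by
      intro j
      induction j with
      | zero =>
        intro g hg
        rw [pow_zero, pow_one] at hg
        rw [hg]
        exact one_mem _
      | succ j ihj =>
        intro g hg
        by_contra hgR
        have hx := ihj (g ^ q) (by rw [← pow_mul, ← pow_succ']; exact hg)
        apply hgR
        refine hG.step4 hq ⟨j + 1, hg⟩ hx ?_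
        intro c _ i hci
        -- c normalises the group generated by g
        have h1 : c * g * c⁻¹ ∈ zpowers g := by
          obtain ⟨k, hk⟩ := hci
          have hk' : (g ^ q) ^ k = c * g * c⁻¹ * (g ^ i)⁻¹ := hk
          have h2 : c * g * c⁻¹ = (g ^ q) ^ k * g ^ i := by rw [hk']; group
          rw [h2]
          exact mul_mem (zpow_mem (pow_mem (Subgroup.mem_zpowers g) q) k) (zpow_mem (Subgroup.mem_zpowers g) i)
        rw [← (hG.per g).mem_powers_iff_mem_zpowers] at h1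
        obtain ⟨m, hm⟩ := h1
        have hm' : c * g * c⁻¹ = g ^ m := hm.symm
        have h2 := hG.fusion hq ⟨j + 1, hg⟩ hgR hsmall hm'
        rw [hm']
        -- g^m g^-1 is a power of g^q
        have h3 : (q : ℤ) ∣ (m : ℤ) - 1 := by
          have h4 := (Nat.modEq_iff_dvd.1 h2.symm)
          simpa using h4
        obtain ⟨k, hk⟩ := h3
        refine ⟨k, ?_⟩
        show (g ^ q) ^ k = g ^ m * g⁻¹
        have h4 : (m : ℤ) = q * k + 1 := by linarith
        rw [← zpow_natCast g m, h4, zpow_add, zpow_one, zpow_mul, zpow_natCast,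
          mul_inv_cancel_right]
    intro g hg
    obtain ⟨j, hj⟩ := hg
    exact key j g hj

theorem ZCls.mem_rad_top (hG : ZCls G) (n : ℕ) : ∀ g : G, orderOf g ≤ n →
    g ∈ rad (⊤ : Subgroup G) := by
  induction n with
  | zero =>
    intro g hg
    have h1 := orderOf_pos_iff.2 (hG.per g)
    omega
  | succ n ih =>
    intro g hg
    by_cases hg1 : orderOf g = 1
    · rw [orderOf_eq_one_iff.1 hg1]
      exact one_mem _
    obtain ⟨q, hq, hqd⟩ := Nat.exists_prime_and_dvd hg1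
    have hpos := orderOf_pos_iff.2 (hG.per g)
    have hpow : ∀ d : ℕ, d ∣ orderOf g → d ≠ 1 → g ^ d ∈ rad (⊤ : Subgroup G) := by
      intro d hd hd1
      apply ih
      have hd0 : d ≠ 0 := by
        rintro rfl
        have := Nat.eq_zero_of_zero_dvd hd
        omega
      rw [orderOf_pow_of_dvd hd0 hd]
      have h1 : orderOf g / d < orderOf g := Nat.div_lt_self hpos (by omega)
      omega
    obtain ⟨i, m, hm, him⟩ := Nat.exists_eq_pow_mul_and_not_dvd
      (n := orderOf g) hpos.ne' q hq.one_lt.ne'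
    by_cases hm1 : m = 1
    · have h1 : ∃ j : ℕ, g ^ q ^ j = 1 := by
        refine ⟨i, ?_⟩
        rw [hm1, mul_one] at him
        rw [← him, pow_orderOf_eq_one]
      exact hG.prime_pow_mem q q hq (le_refl _) g h1
    · have h1 : g ^ m ∈ rad (⊤ : Subgroup G) := hpow m ⟨q ^ i, by rw [him, mul_comm]⟩ hm1
      have hi0 : i ≠ 0 := by
        rintro rfl
        rw [pow_zero, one_mul] at him
        exact hm (by rw [← him]; exact hqd)
      have h2 : g ^ q ^ i ∈ rad (⊤ : Subgroup G) := by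
        refine hpow (q ^ i) ⟨m, him⟩ ?_
        have h3 := Nat.one_lt_pow hi0 hq.one_lt
        omega
      exact mem_of_pow_mem h2 h1 (Nat.Coprime.pow_left i ((hq.coprime_iff_not_dvd).2 hm))

/-- **The theorem.** -/
theorem ZCls.locally_finite (hG : ZCls G) (S : Set G) (hS : S.Finite) :
    ((closure S : Subgroup G) : Set G).Finite :=
  LF_rad (⊤ : Subgroup G) S hS fun g _ => hG.mem_rad_top (orderOf g) g (le_refl _)

end Pool.Agent.Lib.MP_032401_al.Z
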