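import Pool.Agent.Lib.MP_032401_al.Main

/-!
# MP_032401_al: facts which only use the finite subgroups
-/

set_option autoImplicit false

namespace Pool.Agent.Lib.MP_032401_al.Z

open Subgroup
open scoped commutatorElement

/-- periodic groups whose finite subgroups are metabelian with abelian Sylow subgroups -/
structure Pre (G : Type) [Group G] : Prop where
  per : ∀ g : G, IsOfFinOrder g
  met : ∀ F : Subgroup G, (F : Set G).Finite → ∀ a ∈ F, ∀ b ∈ F, ∀ c ∈ F, ∀ d ∈ F,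
    ⁅a, b⁆ * ⁅c, d⁆ = ⁅c, d⁆ * ⁅a, b⁆
  abp : ∀ p : ℕ, p.Prime → ∀ P : Subgroup G, (P : Set G).Finite →
    (∀ x ∈ P, ∃ k : ℕ, x ^ p ^ k = 1) → ∀ a ∈ P, ∀ b ∈ P, a * b = b * a

variable {G : Type} [Group G]

theorem Pre.of_injective {K : Type} [Group K] (hG : Pre G) (f : K →* G)
    (hf : Function.Injective f) : Pre K where
  per g := by
    obtain ⟨n, hn, h⟩ := isOfFinOrder_iff_pow_eq_one.1 (hG.per (f g))
    refine isOfFinOrder_iff_pow_eq_one.2 ⟨n, hn, hf ?_⟩
    rw [map_pow, h, map_one]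
  met F hF a ha b hb c hc d hd := by
    have hfin : ((F.map f : Subgroup G) : Set G).Finite := by
      rw [Subgroup.coe_map]; exact hF.image f
    have h := hG.met (F.map f) hfin (f a) ⟨a, ha, rfl⟩ (f b) ⟨b, hb, rfl⟩ (f c) ⟨c, hc, rfl⟩
      (f d) ⟨d, hd, rfl⟩
    apply hf
    rw [map_mul, map_mul, map_commutatorElement, map_commutatorElement]
    exact h
  abp p hp P hP hk a ha b hb := by
    have hfin : ((P.map f : Subgroup G) : Set G).Finite := by
      rw [Subgroup.coe_map]; exact hP.image f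
    have h := hG.abp p hp (P.map f) hfin (by
      rintro _ ⟨x, hx, rfl⟩
      obtain ⟨k, hk⟩ := hk x hx
      exact ⟨k, by rw [← map_pow, hk, map_one]⟩) (f a) ⟨a, ha, rfl⟩ (f b) ⟨b, hb, rfl⟩
    apply hf
    rw [map_mul, map_mul]
    exact h

theorem Pre.subgroup (hG : Pre G) (K : Subgroup G) : Pre K :=
  hG.of_injective K.subtype K.subtype_injective

theorem Pre.of_surjective {Q : Type} [Group Q] (hG : Pre G) (f : G →* Q)
    (hf : Function.Surjective f) (hk : (f.ker : Set G).Finite) : Pre Q := by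
  have hpre : ∀ A : Subgroup Q, (A : Set Q).Finite → ((A.comap f : Subgroup G) : Set G).Finite := by
    intro A hA
    rw [Subgroup.coe_comap]
    refine hA.preimage' fun b _ => ?_
    obtain ⟨g, rfl⟩ := hf b
    refine (hk.image (fun z => g * z)).subset ?_
    intro z hz
    refine ⟨g⁻¹ * z, ?_, by simp⟩
    have hz' : f z = f g := hz
    show g⁻¹ * z ∈ f.ker
    rw [MonoidHom.mem_ker, map_mul, map_inv, hz', inv_mul_cancel]
  refine ⟨?_, ?_, ?_⟩
  · intro g
    obtain ⟨g, rfl⟩ := hf g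
    exact f.isOfFinOrder (hG.per g)
  · intro F hF a ha b hb c hc d hd
    obtain ⟨a, rfl⟩ := hf a
    obtain ⟨b, rfl⟩ := hf b
    obtain ⟨c, rfl⟩ := hf c
    obtain ⟨d, rfl⟩ := hf d
    have h := hG.met (F.comap f) (hpre F hF) a ha b hb c hc d hd
    rw [← map_commutatorElement, ← map_commutatorElement, ← map_mul, ← map_mul, h]
  · intro p hp P hP hk' a ha b hb
    have hfact : Fact p.Prime := ⟨hp⟩
    have hFfin : Finite (P.comap f) := (hpre P hP).to_subtype
    have hPfin : Finite P := hP.to_subtype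
    have hsur : Function.Surjective (f.subgroupComap P) :=
      f.subgroupComap_surjective_of_surjective P hf
    let S : Sylow p (P.comap f) := default
    have hPp : IsPGroup p P := by
      intro x
      obtain ⟨k, hk⟩ := hk' x.1 x.2
      exact ⟨k, Subtype.ext (by simpa using hk)⟩
    have hS : ((S.mapSurjective hsur : Sylow p P) : Subgroup P) = ⊤ := by
      have h3 := (S.mapSurjective hsur).is_maximal' (Q := ⊤)
        (IsPGroup.of_equiv hPp Subgroup.topEquiv.symm) le_top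
      exact h3.symm
    rw [Sylow.coe_mapSurjective] at hS
    have hlift : ∀ z : P, ∃ w : P.comap f, w ∈ (S : Subgroup (P.comap f)) ∧
        f.subgroupComap P w = z := by
      intro z
      have hz : z ∈ Subgroup.map (f.subgroupComap P) (S : Subgroup (P.comap f)) := by
        rw [hS]; trivial
      exact hz
    obtain ⟨w, hw, hwa⟩ := hlift ⟨a, ha⟩
    obtain ⟨v, hv, hvb⟩ := hlift ⟨b, hb⟩
    have hSmap : (((S : Subgroup (P.comap f)).map (P.comap f).subtype : Subgroup G) :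
        Set G).Finite := (hpre P hP).subset (Subgroup.map_subtype_le _)
    have h4 := hG.abp p hp ((S : Subgroup (P.comap f)).map (P.comap f).subtype) hSmap (by
      rintro _ ⟨x, hx, rfl⟩
      obtain ⟨k, hk⟩ := S.2 ⟨x, hx⟩
      refine ⟨k, ?_⟩
      have h5 := congrArg (fun z : S => ((z : P.comap f) : G)) hk
      simpa using h5) w.1 ⟨w, hw, rfl⟩ v.1 ⟨v, hv, rfl⟩
    have ha' : f w.1 = a := congrArg Subtype.val hwa
    have hb' : f v.1 = b := congrArg Subtype.val hvb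
    rw [← ha', ← hb', ← map_mul, ← map_mul, h4]

/-- The section `N_G(H)/H`. -/
theorem Pre.section (hG : Pre G) (H : Subgroup G) (hH : (H : Set G).Finite) :
    Pre ((Subgroup.normalizer (H : Set G)) ⧸ (H.subgroupOf (Subgroup.normalizer (H : Set G)))) := by
  refine (hG.subgroup (Subgroup.normalizer (H : Set G))).of_surjective
    (QuotientGroup.mk' _) (QuotientGroup.mk'_surjective _) ?_
  rw [QuotientGroup.ker_mk']
  have h := hH.preimage (f := (Subtype.val : Subgroup.normalizer (H : Set G) → G))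
    (Subtype.val_injective.injOn)
  exact h

/-- a finite group which is a `p`-group modulo a finite subgroup is abelian modulo it -/
theorem Pre.quot_comm (hG : Pre G) {p : ℕ} (hp : p.Prime) {O K : Subgroup G}
    (hO : (O : Set G).Finite) (hK : (K : Set G).Finite) (hKN : K ≤ normalizer (O : Set G))
    (h : ∀ k ∈ K, ∃ j : ℕ, k ^ p ^ j ∈ O) : ∀ a ∈ K, ∀ b ∈ K, ⁅a, b⁆ ∈ O := by
  have hQ := hG.section O hO
  let π := QuotientGroup.mk' (O.subgroupOf (normalizer (O : Set G)))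
  have hfin : (((K.subgroupOf (normalizer (O : Set G))).map π :
      Subgroup ((normalizer (O : Set G)) ⧸ (O.subgroupOf (normalizer (O : Set G))))) :
      Set ((normalizer (O : Set G)) ⧸ (O.subgroupOf (normalizer (O : Set G))))).Finite := by
    rw [Subgroup.coe_map]
    refine Set.Finite.image _ ?_
    exact hK.preimage (f := (Subtype.val : normalizer (O : Set G) → G))
      (Subtype.val_injective.injOn)
  intro a ha b hb
  have h1 := hQ.abp p hp _ hfin (by
    rintro _ ⟨x, hx, rfl⟩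
    obtain ⟨j, hj⟩ := h x.1 hx
    refine ⟨j, ?_⟩
    rw [← map_pow, ← MonoidHom.mem_ker, QuotientGroup.ker_mk']
    exact hj) (π ⟨a, hKN ha⟩) ⟨⟨a, hKN ha⟩, ha, rfl⟩ (π ⟨b, hKN hb⟩) ⟨⟨b, hKN hb⟩, hb, rfl⟩
  have h2 : π ⁅(⟨a, hKN ha⟩ : normalizer (O : Set G)), ⟨b, hKN hb⟩⁆ = 1 := by
    rw [map_commutatorElement]
    exact commutatorElement_eq_one_iff_mul_comm.2 h1
  rw [← MonoidHom.mem_ker, QuotientGroup.ker_mk'] at h2
  exact h2

theorem Pre.der_comm (hG : Pre G) {K : Subgroup G} (hK : (K : Set G).Finite) :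
    ∀ x ∈ ⁅K, K⁆, ∀ y ∈ ⁅K, K⁆, x * y = y * x := by
  rw [Subgroup.commutator_def]
  apply closure_comm
  rintro _ ⟨a, ha, b, hb, rfl⟩ _ ⟨c, hc, d, hd, rfl⟩
  exact hG.met K hK a ha b hb c hc d hd

/-- **Step 1.** -/
theorem Pre.step1 (hG : Pre G) {p : ℕ} (hp : p.Prime) {t y : G} (ht : t ^ p = 1)
    (hy : y ^ p = 1) (hfin : ((closure {t, y} : Subgroup G) : Set G).Finite) :
    (∀ d ∈ ⁅closure {t, y}, closure {t, y}⁆, ∃ m : ℕ, ¬ p ∣ m ∧ d ^ m = 1) ∧
    Fpf t ⁅closure {t, y}, closure {t, y}⁆ ∧ Fpf y ⁅closure {t, y}, closure {t, y}⁆ ∧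
    ∃ n ∈ ⁅closure {t, y}, closure {t, y}⁆, ∃ h ∈ closure {t, y}, y = n * h ∧ h * t = t * h ∧
      h ^ p = 1 := by
  set K : Subgroup G := closure {t, y} with hKdef
  have hK : (K : Set G).Finite := hfin
  have hAc := hG.der_comm hK
  have hAle : ⁅K, K⁆ ≤ K := der_le K
  have hAfin : ((⁅K, K⁆ : Subgroup G) : Set G).Finite := hK.subset hAle
  have htK : t ∈ K := subset_closure (by simp)
  have hyK : y ∈ K := subset_closure (by simp)
  have hKN := le_normalizer_der K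
  -- p-th powers
  have hpow : ∀ k ∈ K, k ^ p ∈ ⁅K, K⁆ := by
    intro k hk
    induction hk using closure_induction with
    | mem x hx =>
      rcases hx with rfl | hx
      · rw [ht]; exact one_mem _
      · rw [Set.mem_singleton_iff] at hx
        rw [hx, hy]; exact one_mem _
    | one => rw [one_pow]; exact one_mem _
    | mul a b ha hb iha ihb =>
      obtain ⟨d, hd, h1⟩ := mul_pow_mod (hKN ha) (hKN hb)
        (Subgroup.commutator_mem_commutator ha hb) p
      rw [h1]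
      exact mul_mem hd (mul_mem iha ihb)
    | inv a ha iha => rw [inv_pow]; exact inv_mem iha
  -- the p'-part
  let O := pprime ⁅K, K⁆ hAc p hp
  have hOle : O ≤ ⁅K, K⁆ := fun a ha => ha.1
  have hOfin : (O : Set G).Finite := hAfin.subset hOle
  have hKO : K ≤ normalizer (O : Set G) := by
    rw [Subgroup.le_normalizer_iff]
    rintro h hh k ⟨hk, m, hm, hkm⟩
    refine ⟨der_conj hh hk, m, hm, ?_⟩
    rw [conj_pow, hkm]
    group
  have hO : ∀ a ∈ K, ∀ b ∈ K, ⁅a, b⁆ ∈ O := by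
    apply hG.quot_comm hp hOfin hK hKO
    intro k hk
    have h1 := hpow k hk
    obtain ⟨j, m, hm, hjm⟩ := Nat.exists_eq_pow_mul_and_not_dvd
      (n := orderOf (k ^ p)) ((orderOf_pos_iff.2 (hG.per _)).ne') p hp.one_lt.ne'
    refine ⟨j + 1, ?_⟩
    rw [pow_succ', pow_mul]
    refine ⟨pow_mem h1 _, m, hm, ?_⟩
    rw [← pow_mul, ← hjm, pow_orderOf_eq_one]
  have hpp : ∀ d ∈ ⁅K, K⁆, ∃ m : ℕ, ¬ p ∣ m ∧ d ^ m = 1 := by
    intro d hd
    have h1 : ⁅K, K⁆ ≤ O := by
      rw [Subgroup.commutator_le]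
      exact hO
    exact (h1 hd).2
  -- no fixed points, for t and for y
  have hfpf : ∀ u v : G, u ∈ K → v ∈ K → K = closure {u, v} → u ^ p = 1 → Fpf u ⁅K, K⁆ := by
    intro u v hu hv hKuv hup
    have hinv : ∀ a ∈ ⁅K, K⁆, u * a * u⁻¹ ∈ ⁅K, K⁆ := fun a ha => der_conj hu ha
    let D : Subgroup G :=
      { carrier := {d | ∃ k ∈ ⁅K, K⁆, ⁅k, u⁆ = d}
        one_mem' := ⟨1, one_mem _, commutatorElement_one_left u⟩
        mul_mem' := by
          rintro _ _ ⟨k, hk, rfl⟩ ⟨l, hl, rfl⟩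
          exact ⟨k * l, mul_mem hk hl, comm_hom hAc hinv hk hl⟩
        inv_mem' := by
          rintro _ ⟨k, hk, rfl⟩
          refine ⟨k⁻¹, inv_mem hk, ?_⟩
          have h1 := comm_hom hAc hinv hk (inv_mem hk)
          rw [mul_inv_cancel, commutatorElement_one_left] at h1
          exact eq_inv_of_mul_eq_one_right h1.symm }
    have hDmem : ∀ d, d ∈ D ↔ ∃ k ∈ ⁅K, K⁆, ⁅k, u⁆ = d := fun d => Iff.rfl
    have hKD : K ≤ normalizer (D : Set G) := by
      rw [Subgroup.le_normalizer_iff]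
      rintro g hg _ ⟨k, hk, rfl⟩
      rw [hDmem]
      refine ⟨g * k * g⁻¹, der_conj hg hk, ?_⟩
      have hm : ⁅g, u⁆ ∈ ⁅K, K⁆ := Subgroup.commutator_mem_commutator hg hu
      have hk' : g * k * g⁻¹ ∈ ⁅K, K⁆ := der_conj hg hk
      have h1 : g * ⁅k, u⁆ * g⁻¹ = ⁅g * k * g⁻¹, ⁅g, u⁆ * u⁆ := by
        simp only [commutatorElement_def]; group
      have h2 : ⁅g * k * g⁻¹, ⁅g, u⁆ * u⁆ = ⁅g * k * g⁻¹, u⁆ := by
        have h3 := hAc _ hm _ (mul_mem hk' (hinv _ (inv_mem hk')))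
        calc ⁅g * k * g⁻¹, ⁅g, u⁆ * u⁆
            = (g * k * g⁻¹ * ⁅g, u⁆) * (u * (g * k * g⁻¹)⁻¹ * u⁻¹) * ⁅g, u⁆⁻¹ := by
              rw [commutatorElement_def (g * k * g⁻¹)]; group
          _ = (⁅g, u⁆ * (g * k * g⁻¹)) * (u * (g * k * g⁻¹)⁻¹ * u⁻¹) * ⁅g, u⁆⁻¹ := by
              rw [hAc _ hk' _ hm]
          _ = ⁅g, u⁆ * ((g * k * g⁻¹) * (u * (g * k * g⁻¹)⁻¹ * u⁻¹)) * ⁅g, u⁆⁻¹ := by group
          _ = ((g * k * g⁻¹) * (u * (g * k * g⁻¹)⁻¹ * u⁻¹)) * ⁅g, u⁆ * ⁅g, u⁆⁻¹ := by rw [h3]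
          _ = ⁅g * k * g⁻¹, u⁆ := by rw [commutatorElement_def (g * k * g⁻¹)]; group
      rw [h1, h2]
    have hDle : D ≤ ⁅K, K⁆ := by
      rintro _ ⟨k, hk, rfl⟩
      exact comm_mem hinv hk
    -- the commutator of v and u is in D
    have hvu : ⁅v, u⁆ ∈ D := by
      have hm : ⁅v, u⁆ ∈ ⁅K, K⁆ := Subgroup.commutator_mem_commutator hv hu
      obtain ⟨d, hd, h1⟩ := mul_pow_mod (hKD (hAle hm)) (hKD hu) ⟨⁅v, u⁆, hm, rfl⟩ p
      have h2 : (⁅v, u⁆ * u) ^ p = 1 := by
        have h3 : ⁅v, u⁆ * u = v * u * v⁻¹ := by rw [commutatorElement_def]; group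
        rw [h3, conj_pow, hup]
        group
      rw [h2, hup, mul_one] at h1
      have h4 : ⁅v, u⁆ ^ p ∈ D := by
        have h5 : ⁅v, u⁆ ^ p = d⁻¹ := eq_inv_of_mul_eq_one_right h1.symm
        rw [h5]
        exact inv_mem hd
      obtain ⟨m, hm1, hm2⟩ := hpp _ hm
      refine mem_of_pow_mem h4 (b := m) (by rw [hm2]; exact one_mem _) ?_
      exact (hp.coprime_iff_not_dvd).2 hm1
    have hKle : ⁅K, K⁆ ≤ D := by
      rw [Subgroup.commutator_le]
      intro a ha b hb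
      rw [hKuv] at ha hb
      refine comm_mod (S := {u, v}) ?_ ?_ a ha b hb
      · rintro z (rfl | hz)
        · exact hKD hu
        · rw [Set.mem_singleton_iff] at hz
          rw [hz]; exact hKD hv
      · rintro z (rfl | hz) w (rfl | hw)
        · rw [commutatorElement_self]; exact one_mem _
        · rw [Set.mem_singleton_iff] at hw
          rw [hw, ← commutatorElement_inv]
          exact inv_mem hvu
        · rw [Set.mem_singleton_iff] at hz
          rw [hz]; exact hvu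
        · rw [Set.mem_singleton_iff] at hz hw
          rw [hz, hw, commutatorElement_self]; exact one_mem _
    exact ⟨hAfin, hAc, hinv, fix_of_surj hAfin hinv fun a ha => hKle ha⟩
  have hft := hfpf t y htK hyK hKdef ht
  have hfy := hfpf y t hyK htK (by rw [hKdef, Set.pair_comm]) hy
  refine ⟨hpp, hft, hfy, ?_⟩
  obtain ⟨n, hn, hn1⟩ := hft.surj _ (Subgroup.commutator_mem_commutator hyK htK)
  have hnK := hAle hn
  refine ⟨n, hn, n⁻¹ * y, mul_mem (inv_mem hnK) hyK, by group, ?_, ?_⟩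
  · have h1 : n * t * n⁻¹ = y * t * y⁻¹ := by
      have h2 : ⁅n, t⁆ * t = ⁅y, t⁆ * t := by rw [hn1]
      simpa only [commutatorElement_def, inv_mul_cancel_right] using h2
    calc n⁻¹ * y * t = n⁻¹ * (y * t * y⁻¹) * y := by group
      _ = n⁻¹ * (n * t * n⁻¹) * y := by rw [h1]
      _ = t * (n⁻¹ * y) := by group
  · have hhK : n⁻¹ * y ∈ K := mul_mem (inv_mem hnK) hyK
    apply hft.fix _ (hpow _ hhK)
    have h1 : Commute (n⁻¹ * y) t := by
      have h2 : n * t * n⁻¹ = y * t * y⁻¹ := by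
        have h3 : ⁅n, t⁆ * t = ⁅y, t⁆ * t := by rw [hn1]
        simpa only [commutatorElement_def, inv_mul_cancel_right] using h3
      show n⁻¹ * y * t = t * (n⁻¹ * y)
      calc n⁻¹ * y * t = n⁻¹ * (y * t * y⁻¹) * y := by group
        _ = n⁻¹ * (n * t * n⁻¹) * y := by rw [h2]
        _ = t * (n⁻¹ * y) := by group
    exact (h1.pow_left p).eq

/-- the relation for a good pair -/
theorem Pre.rel (hG : Pre G) {p : ℕ} (hp : p.Prime) {t : G} (ht : t ^ p = 1) {N N' : Subgroup G}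
    (hN : Fpf t N) (hN' : Fpf t N') {a b : G} (ha : a ∈ N) (hb : b ∈ N')
    (hK : ((closure {a⁻¹ * t, b * t} : Subgroup G) : Set G).Finite)
    (hgood : ∃ m : ℕ, ¬ p ∣ m ∧ (b * a) ^ m = 1) :
    ⁅t * a * t⁻¹, b⁆ = ⁅a⁻¹, (t * b * t⁻¹)⁻¹⁆ := by
  have hat : (a⁻¹ * t) ^ p = 1 := hN.pow ht (N.inv_mem ha)
  have hbt : (b * t) ^ p = 1 := hN'.pow ht hb
  have haK : a⁻¹ * t ∈ closure {a⁻¹ * t, b * t} := subset_closure (by simp)
  have hbK : b * t ∈ closure {a⁻¹ * t, b * t} := subset_closure (by simp)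
  have hcK : b * a ∈ closure {a⁻¹ * t, b * t} := by
    have h1 : b * a = (b * t) * (a⁻¹ * t)⁻¹ := by group
    rw [h1]
    exact mul_mem hbK (inv_mem haK)
  obtain ⟨m, hm, hcm⟩ := hgood
  have hc := mem_of_pow_mem (pow_mem_der hat hbt _ hcK) (b := m) (by rw [hcm]; exact one_mem _)
    ((hp.coprime_iff_not_dvd).2 hm)
  have h1 := hG.der_comm hK _ hc _ (der_conj haK hc)
  have h2 : t * a * t⁻¹ * a = a * (t * a * t⁻¹) := hN.comm _ (hN.inv a ha) _ ha
  have h3 : b * (t * b * t⁻¹) = t * b * t⁻¹ * b := hN'.comm _ hb _ (hN'.inv b hb)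
  have h4 : a * (t * b * t⁻¹) * b * (t * a * t⁻¹) = (t * b * t⁻¹) * a * (t * a * t⁻¹) * b := by
    calc a * (t * b * t⁻¹) * b * (t * a * t⁻¹)
        = a * (t * b * t⁻¹ * b) * (t * a * t⁻¹) := by group
      _ = a * (b * (t * b * t⁻¹)) * (t * a * t⁻¹) := by rw [h3]
      _ = a * (b * a * (a⁻¹ * t * (b * a) * (a⁻¹ * t)⁻¹)) * a⁻¹ := by group
      _ = a * (a⁻¹ * t * (b * a) * (a⁻¹ * t)⁻¹ * (b * a)) * a⁻¹ := by rw [h1]
      _ = (t * b * t⁻¹) * (t * a * t⁻¹ * a) * b := by group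
      _ = (t * b * t⁻¹) * a * (t * a * t⁻¹) * b := by rw [h2]; group
  rw [commutatorElement_def, commutatorElement_def]
  calc t * a * t⁻¹ * b * (t * a * t⁻¹)⁻¹ * b⁻¹
      = ((t * b * t⁻¹) * a)⁻¹ * ((t * b * t⁻¹) * a * (t * a * t⁻¹) * b) *
        (b * (t * a * t⁻¹))⁻¹ := by group
    _ = ((t * b * t⁻¹) * a)⁻¹ * (a * (t * b * t⁻¹) * b * (t * a * t⁻¹)) *
        (b * (t * a * t⁻¹))⁻¹ := by rw [h4]
    _ = a⁻¹ * (t * b * t⁻¹)⁻¹ * a⁻¹⁻¹ * ((t * b * t⁻¹)⁻¹)⁻¹ := by group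

/-- two elements of `q`-power order: commutators are `q'`-elements of the derived subgroup -/
theorem Pre.comm_pprime (hG : Pre G) {q : ℕ} (hq : q.Prime) {x y : G}
    (hx : ∃ j : ℕ, x ^ q ^ j = 1) (hy : ∃ j : ℕ, y ^ q ^ j = 1)
    (hL : ((closure {x, y} : Subgroup G) : Set G).Finite) :
    ∃ m : ℕ, ¬ q ∣ m ∧ ⁅x, y⁆ ^ m = 1 := by
  have hAc := hG.der_comm hL
  have hKN := le_normalizer_der (closure {x, y})
  have hpow : ∀ k ∈ closure {x, y}, ∃ j : ℕ, k ^ q ^ j ∈ ⁅closure {x, y}, closure {x, y}⁆ := by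
    intro k hk
    induction hk using closure_induction with
    | mem z hz =>
      rcases hz with rfl | hz
      · obtain ⟨j, hj⟩ := hx
        exact ⟨j, by rw [hj]; exact one_mem _⟩
      · rw [Set.mem_singleton_iff] at hz
        obtain ⟨j, hj⟩ := hy
        exact ⟨j, by rw [hz, hj]; exact one_mem _⟩
    | one => exact ⟨0, by rw [one_pow]; exact one_mem _⟩
    | mul a b ha hb iha ihb =>
      obtain ⟨i, hi⟩ := iha
      obtain ⟨j, hj⟩ := ihb
      obtain ⟨d, hd, h1⟩ := mul_pow_mod (hKN ha) (hKN hb)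
        (Subgroup.commutator_mem_commutator ha hb) (q ^ (i + j))
      refine ⟨i + j, ?_⟩
      rw [h1]
      refine mul_mem hd (mul_mem ?_ ?_)
      · rw [pow_add, pow_mul]; exact pow_mem hi _
      · rw [add_comm, pow_add, pow_mul]; exact pow_mem hj _
    | inv a ha iha =>
      obtain ⟨i, hi⟩ := iha
      exact ⟨i, by rw [inv_pow]; exact inv_mem hi⟩
  let O := pprime ⁅closure {x, y}, closure {x, y}⁆ hAc q hq
  have hOfin : (O : Set G).Finite := (hL.subset (der_le _)).subset fun a ha => ha.1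
  have hKO : closure {x, y} ≤ normalizer (O : Set G) := by
    rw [Subgroup.le_normalizer_iff]
    rintro h hh k ⟨hk, m, hm, hkm⟩
    refine ⟨der_conj hh hk, m, hm, ?_⟩
    rw [conj_pow, hkm]
    group
  have hO := hG.quot_comm hq hOfin hL hKO (by
    intro k hk
    obtain ⟨i, hi⟩ := hpow k hk
    obtain ⟨j, m, hm, hjm⟩ := Nat.exists_eq_pow_mul_and_not_dvd
      (n := orderOf (k ^ q ^ i)) ((orderOf_pos_iff.2 (hG.per _)).ne') q hq.one_lt.ne'
    refine ⟨i + j, ?_⟩
    rw [pow_add, pow_mul]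
    refine ⟨pow_mem hi _, m, hm, ?_⟩
    rw [← pow_mul, ← hjm, pow_orderOf_eq_one])
  exact (hO x (subset_closure (by simp)) y (subset_closure (by simp))).2

/-- if the commutator of two elements is central in the finite group generated by them, then
they commute -/
theorem Pre.comm_of_central (hG : Pre G) {b c : G} (hb : ⁅b, c⁆ * b = b * ⁅b, c⁆)
    (hc : ⁅b, c⁆ * c = c * ⁅b, c⁆) (hF : ((closure {b, c} : Subgroup G) : Set G).Finite) :
    b * c = c * b := by
  have hbc : ∀ i j : ℕ, ⁅b ^ i, c ^ j⁆ = ⁅b, c⁆ ^ (i * j) := by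
    have h1 : ∀ i : ℕ, ⁅b ^ i, c⁆ = ⁅b, c⁆ ^ i := by
      intro i
      induction i with
      | zero => rw [pow_zero, pow_zero, commutatorElement_one_left]
      | succ i ih =>
        have h2 : ⁅b ^ (i + 1), c⁆ = b ^ i * ⁅b, c⁆ * (b ^ i)⁻¹ * ⁅b ^ i, c⁆ := by
          rw [pow_succ, commutatorElement_def, commutatorElement_def, commutatorElement_def]
          group
        have h3 : Commute ⁅b, c⁆ (b ^ i) := (show Commute ⁅b, c⁆ b from hb).pow_right i
        rw [h2, ih, ← h3.eq, mul_inv_cancel_right, pow_succ']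
    have h2 : ∀ i j : ℕ, ⁅b ^ i, c ^ j⁆ = ⁅b ^ i, c⁆ ^ j := by
      intro i j
      induction j with
      | zero => rw [pow_zero, pow_zero, commutatorElement_one_right]
      | succ j ih =>
        have h2 : ⁅b ^ i, c ^ (j + 1)⁆ = ⁅b ^ i, c ^ j⁆ * (c ^ j * ⁅b ^ i, c⁆ * (c ^ j)⁻¹) := by
          rw [pow_succ, commutatorElement_def, commutatorElement_def, commutatorElement_def]
          group
        have h3 : Commute ⁅b ^ i, c⁆ (c ^ j) := by
          rw [h1 i]
          exact ((show Commute ⁅b, c⁆ c from hc).pow_right j).pow_left i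
        rw [h2, ih, ← h3.eq, mul_inv_cancel_right, pow_succ]
    intro i j
    rw [h2, h1, pow_mul]
  by_contra hne
  have hz : ⁅b, c⁆ ≠ 1 := fun h => hne (commutatorElement_eq_one_iff_mul_comm.1 h)
  have hz1 : orderOf ⁅b, c⁆ ≠ 1 := fun h => hz (orderOf_eq_one_iff.1 h)
  obtain ⟨q, hq, hqd⟩ := Nat.exists_prime_and_dvd hz1
  obtain ⟨i, m, hm, him⟩ := Nat.exists_eq_pow_mul_and_not_dvd
    (n := orderOf b) ((orderOf_pos_iff.2 (hG.per _)).ne') q hq.one_lt.ne'
  obtain ⟨j, l, hl, hjl⟩ := Nat.exists_eq_pow_mul_and_not_dvd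
    (n := orderOf c) ((orderOf_pos_iff.2 (hG.per _)).ne') q hq.one_lt.ne'
  have hbm : ∃ k : ℕ, (b ^ m) ^ q ^ k = 1 :=
    ⟨i, by rw [← pow_mul, mul_comm, ← him, pow_orderOf_eq_one]⟩
  have hcl : ∃ k : ℕ, (c ^ l) ^ q ^ k = 1 :=
    ⟨j, by rw [← pow_mul, mul_comm, ← hjl, pow_orderOf_eq_one]⟩
  have hF' : ((closure {b ^ m, c ^ l} : Subgroup G) : Set G).Finite := by
    refine hF.subset ?_
    have h1 : closure {b ^ m, c ^ l} ≤ closure {b, c} := by
      rw [closure_le]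
      rintro x (rfl | hx)
      · exact pow_mem (subset_closure (by simp)) m
      · rw [Set.mem_singleton_iff] at hx
        rw [hx]
        exact pow_mem (subset_closure (by simp)) l
    exact h1
  obtain ⟨n, hn, hn1⟩ := hG.comm_pprime hq hbm hcl hF'
  rw [hbc, ← pow_mul] at hn1
  have h1 := hqd.trans (orderOf_dvd_of_pow_eq_one hn1)
  rcases hq.dvd_mul.1 h1 with h | h
  · rcases hq.dvd_mul.1 h with h | h
    · exact hm h
    · exact hl h
  · exact hn h

end Pool.Agent.Lib.MP_032401_al.Z
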